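import Pool.Agent.Helper1.FF.Defs

/-!
Basic library on face sets of an abstract sphere.
-/

namespace Pool.Agent.Helper1.FF

open Finset
open scoped Classical

variable {V F : Type} [Fintype V] [DecidableEq V] [Fintype F] [DecidableEq F]

namespace Sph

variable {T : Sph V F}

/-! ### sides of edges, boundaries -/

theorem mem_bd {S : Finset F} {e : Sym2 V} :
    e ∈ T.bd S ↔ e ∈ T.G.edgeSet ∧ (T.sd e ∩ S).card = 1 := by
  simp [bd, bd']

theorem bd_edge {S : Finset F} {e : Sym2 V} (h : e ∈ T.bd S) : e ∈ T.G.edgeSet :=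
  (mem_bd.1 h).1

/-- every edge has exactly two sides -/
theorem sides {e : Sym2 V} (he : e ∈ T.G.edgeSet) : ∃ a b, a ≠ b ∧ T.sd e = {a, b} :=
  Finset.card_eq_two.1 (T.sd_card e he)

theorem mem_bd_sides {S : Finset F} {e : Sym2 V} {a b : F} (he : e ∈ T.G.edgeSet) (hab : a ≠ b)
    (h : T.sd e = {a, b}) : e ∈ T.bd S ↔ (a ∈ S ↔ b ∉ S) := by
  rw [mem_bd, h]
  by_cases ha : a ∈ S <;> by_cases hb : b ∈ S
  · have : ({a, b} : Finset F) ∩ S = {a, b} := by
      ext x; simp only [mem_inter, mem_insert, mem_singleton]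
      constructor
      · exact fun h => h.1
      · rintro (rfl | rfl) <;> simp [ha, hb]
    simp [this, Finset.card_pair hab, ha, hb]
  · have : ({a, b} : Finset F) ∩ S = {a} := by
      ext x; simp only [mem_inter, mem_insert, mem_singleton]
      constructor
      · rintro ⟨rfl | rfl, hx⟩
        · rfl
        · exact absurd hx hb
      · rintro rfl; simp [ha]
    simp [this, ha, hb, he]
  · have : ({a, b} : Finset F) ∩ S = {b} := by
      ext x; simp only [mem_inter, mem_insert, mem_singleton]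
      constructor
      · rintro ⟨rfl | rfl, hx⟩
        · exact absurd hx ha
        · rfl
      · rintro rfl; simp [hb]
    simp [this, ha, hb, he]
  · have : ({a, b} : Finset F) ∩ S = ∅ := by
      ext x; simp only [mem_inter, mem_insert, mem_singleton, notMem_empty, iff_false]
      rintro ⟨rfl | rfl, hx⟩
      · exact ha hx
      · exact hb hx
    simp [this, ha, hb]

/-- a boundary edge has one side `a` in `S` and one side `b` outside `S` -/
theorem mem_bd_iff {S : Finset F} {e : Sym2 V} :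
    e ∈ T.bd S ↔ e ∈ T.G.edgeSet ∧ ∃ a b, a ≠ b ∧ T.sd e = {a, b} ∧ a ∈ S ∧ b ∉ S := by
  constructor
  · intro h
    have he := bd_edge h
    refine ⟨he, ?_⟩
    obtain ⟨a, b, hab, hs⟩ := T.sides he
    rw [mem_bd_sides he hab hs] at h
    by_cases ha : a ∈ S
    · exact ⟨a, b, hab, hs, ha, h.1 ha⟩
    · refine ⟨b, a, hab.symm, by rw [hs, Finset.pair_comm], ?_, ha⟩
      by_contra hb
      exact ha (h.2 hb)
  · rintro ⟨he, a, b, hab, hs, ha, hb⟩
    rw [mem_bd_sides he hab hs]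
    simp [ha, hb]

theorem mem_inn_sides {S : Finset F} {e : Sym2 V} {a b : F} (he : e ∈ T.G.edgeSet)
    (h : T.sd e = {a, b}) : e ∈ T.inn S ↔ a ∈ S ∧ b ∈ S := by
  simp only [inn, Set.mem_ofPred_eq, h, he, true_and]
  constructor
  · intro h'
    exact ⟨h' (by simp), h' (by simp)⟩
  · rintro ⟨ha, hb⟩ x hx
    simp only [mem_insert, mem_singleton] at hx
    rcases hx with rfl | rfl <;> assumption

theorem inn_edge {S : Finset F} {e : Sym2 V} (h : e ∈ T.inn S) : e ∈ T.G.edgeSet := h.1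

theorem inn_mono {S S' : Finset F} (h : S ⊆ S') : T.inn S ⊆ T.inn S' :=
  fun _ he => ⟨he.1, he.2.trans h⟩

/-- trichotomy for edges -/
theorem edge_cases (S : Finset F) {e : Sym2 V} (he : e ∈ T.G.edgeSet) :
    e ∈ T.inn S ∨ e ∈ T.inn Sᶜ ∨ e ∈ T.bd S := by
  obtain ⟨a, b, hab, hs⟩ := T.sides he
  rw [mem_inn_sides he hs, mem_inn_sides he hs, mem_bd_sides he hab hs]
  simp only [mem_compl]
  tauto

theorem not_mem_inn_of_bd {S : Finset F} {e : Sym2 V} (h : e ∈ T.bd S) : e ∉ T.inn S := by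
  obtain ⟨he, a, b, hab, hs, ha, hb⟩ := mem_bd_iff.1 h
  rw [mem_inn_sides he hs]
  tauto

theorem bd_compl (S : Finset F) : T.bd Sᶜ = T.bd S := by
  ext e
  by_cases he : e ∈ T.G.edgeSet
  · obtain ⟨a, b, hab, hs⟩ := T.sides he
    rw [mem_bd_sides he hab hs, mem_bd_sides he hab hs]
    simp only [mem_compl]
    tauto
  · constructor <;> intro h <;> exact absurd (bd_edge h) he

theorem not_mem_inn_compl_of_bd {S : Finset F} {e : Sym2 V} (h : e ∈ T.bd S) :
    e ∉ T.inn Sᶜ := by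
  rw [← bd_compl] at h
  exact not_mem_inn_of_bd h

@[simp] theorem bd_empty : T.bd (∅ : Finset F) = ∅ := by
  ext e; simp [mem_bd]

@[simp] theorem bd_univ : T.bd (univ : Finset F) = ∅ := by
  rw [← Finset.compl_empty, bd_compl, bd_empty]

theorem bd_symmDiff (S S' : Finset F) :
    T.bd (symmDiff S S') = symmDiff (T.bd S) (T.bd S') := by
  ext e
  by_cases he : e ∈ T.G.edgeSet
  · obtain ⟨a, b, hab, hs⟩ := T.sides he
    rw [Finset.mem_symmDiff, mem_bd_sides he hab hs, mem_bd_sides he hab hs,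
      mem_bd_sides he hab hs, Finset.mem_symmDiff, Finset.mem_symmDiff]
    tauto
  · rw [Finset.mem_symmDiff]
    constructor
    · intro h; exact absurd (bd_edge h) he
    · rintro (h | h) <;> exact absurd (bd_edge h.1) he

theorem bd_union {S S' : Finset F} (h : Disjoint S S') :
    T.bd (S ∪ S') = symmDiff (T.bd S) (T.bd S') := by
  rw [← bd_symmDiff]
  congr 1
  exact (Disjoint.symmDiff_eq_sup h).symm

theorem bd_sdiff {S S' : Finset F} (h : S ⊆ S') :
    T.bd (S' \ S) = symmDiff (T.bd S') (T.bd S) := by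
  rw [← bd_symmDiff]
  congr 1
  ext x
  simp only [mem_sdiff, Finset.mem_symmDiff]
  constructor
  · intro hx; exact Or.inl hx
  · rintro (hx | hx)
    · exact hx
    · exact absurd (h hx.1) hx.2

theorem ev_bd (S : Finset F) : Ev (T.bd S) := T.bd_even S

theorem exists_bd {A : Finset (Sym2 V)} (h : ∀ e ∈ A, e ∈ T.G.edgeSet) (hA : Ev A) :
    ∃ S : Finset F, T.bd S = A := T.ex_bd A h hA

theorem bd_eq_empty {S : Finset F} : T.bd S = ∅ ↔ S = ∅ ∨ S = univ := by
  constructor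
  · exact T.bd_zero S
  · rintro (rfl | rfl) <;> simp

theorem eq_or_compl {S S' : Finset F} (h : T.bd S = T.bd S') : S = S' ∨ S = S'ᶜ := by
  have h1 : T.bd (symmDiff S S') = ∅ := by rw [bd_symmDiff, h, symmDiff_self]; rfl
  rcases bd_eq_empty.1 h1 with h2 | h2
  · left
    exact symmDiff_eq_bot.1 h2
  · right
    ext x
    have : x ∈ symmDiff S S' := by rw [h2]; exact mem_univ x
    rw [Finset.mem_symmDiff] at this
    rw [mem_compl]
    tauto

/-! ### bonds -/

theorem IsBond.compl {S : Finset F} (h : T.IsBond S) : T.IsBond Sᶜ := by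
  unfold IsBond
  rw [bd_compl]
  exact h

theorem isBond_compl {S : Finset F} : T.IsBond Sᶜ ↔ T.IsBond S :=
  ⟨fun h => by simpa using h.compl, fun h => h.compl⟩

theorem IsBond.ne_empty {S : Finset F} (h : T.IsBond S) : S ≠ ∅ := by
  rintro rfl
  simpa using h.1

theorem IsBond.ne_univ {S : Finset F} (h : T.IsBond S) : S ≠ univ := by
  rintro rfl
  simpa using h.1

theorem IsBond.nonempty {S : Finset F} (h : T.IsBond S) : S.Nonempty :=
  Finset.nonempty_iff_ne_empty.2 h.ne_empty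

theorem IsBond.congr {S S' : Finset F} (h : T.IsBond S) (h' : T.bd S' = T.bd S) :
    T.IsBond S' := by
  unfold IsBond
  rw [h']
  exact h

/-- edges are not loops -/
theorem not_isDiag {e : Sym2 V} (he : e ∈ T.G.edgeSet) : ¬ e.IsDiag :=
  SimpleGraph.not_isDiag_of_mem_edgeSet T.G he

theorem isBond_iff_circuit {S : Finset F} : T.IsBond S ↔ IsCircuit (T.bd S) := by
  constructor
  · rintro ⟨h1, h2⟩
    refine ⟨h1, fun e he => not_isDiag (bd_edge he), ev_bd S, fun B hB hBe => ?_⟩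
    obtain ⟨S', hS'⟩ := T.exists_bd (fun e he => bd_edge (hB he)) hBe
    have := h2 S' (by rw [hS']; exact hB)
    rwa [hS'] at this
  · rintro ⟨h1, _, _, h4⟩
    exact ⟨h1, fun S' hS' => h4 _ hS' (ev_bd S')⟩

/-- the fundamental fact (*): if no boundary edge of `X` is interior to the bond `O`, then `O` is
inside `X` or disjoint from `X` -/
theorem star {O X : Finset F} (hO : T.IsBond O) (h : ∀ e ∈ T.bd X, e ∉ T.inn O) :
    O ⊆ X ∨ Disjoint O X := by
  have hsub : T.bd (O ∩ X) ⊆ T.bd O := by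
    intro e he
    obtain ⟨heE, a, b, hab, hs, ha, hb⟩ := mem_bd_iff.1 he
    rw [mem_bd_iff]
    refine ⟨heE, a, b, hab, hs, (mem_inter.1 ha).1, fun hbO => ?_⟩
    have hbX : b ∉ X := fun hbX => hb (mem_inter.2 ⟨hbO, hbX⟩)
    have : e ∈ T.bd X := mem_bd_iff.2 ⟨heE, a, b, hab, hs, (mem_inter.1 ha).2, hbX⟩
    exact h e this ((mem_inn_sides heE hs).2 ⟨(mem_inter.1 ha).1, hbO⟩)
  rcases hO.2 _ hsub with h1 | h1
  · rcases bd_eq_empty.1 h1 with h2 | h2
    · right
      rw [Finset.disjoint_iff_inter_eq_empty]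
      exact h2
    · left
      intro x _
      have : x ∈ O ∩ X := by rw [h2]; exact mem_univ x
      exact (mem_inter.1 this).2
  · rcases eq_or_compl h1 with h2 | h2
    · left
      rw [← h2]
      exact inter_subset_right
    · exfalso
      obtain ⟨x, hx⟩ : ∃ x, x ∈ Oᶜ := by
        by_contra hcon
        push Not at hcon
        apply hO.ne_univ
        ext x
        simpa using hcon x
      have : x ∈ O ∩ X := by rw [h2]; exact hx
      exact (mem_compl.1 hx) (mem_inter.1 this).1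

/-! ### vertex sets -/

theorem mem_vset {S : Finset F} {x : V} : x ∈ T.vset S ↔ ∃ f ∈ S, x ∈ T.vs f := by
  simp [vset]

theorem vset_mono {S S' : Finset F} (h : S ⊆ S') : T.vset S ⊆ T.vset S' :=
  Finset.biUnion_subset_biUnion_of_subset_left _ h

theorem vset_union (S S' : Finset F) : T.vset (S ∪ S') = T.vset S ∪ T.vset S' := by
  ext x
  simp only [mem_vset, mem_union]
  constructor
  · rintro ⟨f, hf | hf, hx⟩
    · exact Or.inl ⟨f, hf, hx⟩
    · exact Or.inr ⟨f, hf, hx⟩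
  · rintro (⟨f, hf, hx⟩ | ⟨f, hf, hx⟩)
    · exact ⟨f, Or.inl hf, hx⟩
    · exact ⟨f, Or.inr hf, hx⟩

@[simp] theorem vset_empty : T.vset (∅ : Finset F) = ∅ := by simp [vset]

theorem vset_univ : T.vset (univ : Finset F) = univ := by
  ext x
  simp only [mem_vset, mem_univ, true_and, iff_true]
  exact T.cover x

theorem mem_vset_or (S : Finset F) (x : V) : x ∈ T.vset S ∨ x ∈ T.vset Sᶜ := by
  obtain ⟨f, hf⟩ := T.cover x
  by_cases h : f ∈ S
  · exact Or.inl (mem_vset.2 ⟨f, h, hf⟩)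
  · exact Or.inr (mem_vset.2 ⟨f, mem_compl.2 h, hf⟩)

/-- if `x` is interior to `S` then every face at `x` is in `S` -/
theorem face_mem {S : Finset F} {x : V} (h : x ∉ T.vset Sᶜ) {f : F} (hf : x ∈ T.vs f) :
    f ∈ S := by
  by_contra hcon
  exact h (mem_vset.2 ⟨f, mem_compl.2 hcon, hf⟩)

/-- if `x ∉ V(S)` then no face at `x` is in `S` -/
theorem face_not_mem {S : Finset F} {x : V} (h : x ∉ T.vset S) {f : F} (hf : x ∈ T.vs f) :
    f ∉ S := fun hcon => h (mem_vset.2 ⟨f, hcon, hf⟩)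

theorem mem_vs_of_side {e : Sym2 V} (he : e ∈ T.G.edgeSet) {f : F} (hf : f ∈ T.sd e) {x : V}
    (hx : x ∈ e) : x ∈ T.vs f := T.sd_vs e he f hf x hx

theorem onB_iff {S : Finset F} {x : V} : T.OnB S x ↔ x ∈ T.vset S ∧ x ∈ T.vset Sᶜ := by
  constructor
  · rintro ⟨e, he, hx⟩
    obtain ⟨heE, a, b, hab, hs, ha, hb⟩ := mem_bd_iff.1 he
    refine ⟨mem_vset.2 ⟨a, ha, ?_⟩, mem_vset.2 ⟨b, mem_compl.2 hb, ?_⟩⟩
    · exact mem_vs_of_side heE (by rw [hs]; simp) hx
    · exact mem_vs_of_side heE (by rw [hs]; simp) hx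
  · rintro ⟨h1, h2⟩
    exact T.link S x h1 h2

theorem onB_compl {S : Finset F} {x : V} : T.OnB Sᶜ x ↔ T.OnB S x := by
  unfold OnB
  rw [bd_compl]

theorem OnB.mem {S : Finset F} {x : V} (h : T.OnB S x) : x ∈ T.vset S := (onB_iff.1 h).1

theorem OnB.mem_compl {S : Finset F} {x : V} (h : T.OnB S x) : x ∈ T.vset Sᶜ := (onB_iff.1 h).2

/-- a boundary vertex of a smaller and of a larger set is a boundary vertex of every set in
between -/
theorem OnB.between {S S' S'' : Finset F} {x : V} (h : T.OnB S x) (h'' : T.OnB S'' x)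
    (h1 : S ⊆ S') (h2 : S' ⊆ S'') : T.OnB S' x :=
  onB_iff.2 ⟨vset_mono h1 h.mem, vset_mono (compl_subset_compl.2 h2) h''.mem_compl⟩

/-- a neighbour (in `G`) of a vertex `x ∉ V(S)` is in `V(Sᶜ)`; both sides of the edge are not in
`S` -/
theorem sides_of_not_mem {S : Finset F} {x y : V} (h : x ∉ T.vset S) (hxy : T.G.Adj x y) :
    ∀ f ∈ T.sd s(x, y), f ∉ S := fun _ hf =>
  face_not_mem h (mem_vs_of_side ((SimpleGraph.mem_edgeSet _).2 hxy) hf (by simp))

theorem edge_inn_compl {S : Finset F} {x y : V} (h : x ∉ T.vset S) (hxy : T.G.Adj x y) :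
    s(x, y) ∈ T.inn Sᶜ :=
  ⟨hxy, fun _ hf => mem_compl.2 (sides_of_not_mem h hxy _ hf)⟩

theorem adj_mem_compl {S : Finset F} {x y : V} (h : x ∉ T.vset S) (hxy : T.G.Adj x y) :
    y ∈ T.vset Sᶜ := by
  obtain ⟨a, b, hab, hs⟩ := T.sides (show s(x, y) ∈ T.G.edgeSet from hxy)
  have ha : a ∈ T.sd s(x, y) := by rw [hs]; simp
  exact mem_vset.2 ⟨a, mem_compl.2 (sides_of_not_mem h hxy a ha),
    mem_vs_of_side hxy ha (by simp)⟩

/-- a walk from a vertex outside `V(S)` to a vertex of `V(S)` meets the boundary of `S` -/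
theorem walk_cross {S : Finset F} {q x : V} (p : T.G.Walk q x) (hq : q ∉ T.vset S)
    (hx : x ∈ T.vset S) : ∃ y ∈ p.support, T.OnB S y := by
  induction p with
  | nil => exact absurd hx hq
  | @cons u v w h p ih =>
    by_cases hv : v ∈ T.vset S
    · exact ⟨v, by simp, onB_iff.2 ⟨hv, adj_mem_compl hq h⟩⟩
    · obtain ⟨y, hy, hy'⟩ := ih hv hx
      exact ⟨y, by simp [hy], hy'⟩

/-- a walk from a vertex outside `V(S)` which never meets the boundary of `S` stays outside -/
theorem walk_stay {S : Finset F} {q x : V} (p : T.G.Walk q x) (hq : q ∉ T.vset S)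
    (hp : ∀ y ∈ p.support, ¬ T.OnB S y) : ∀ y ∈ p.support, y ∉ T.vset S := by
  intro y hy hyS
  obtain ⟨z, hz, hz'⟩ := walk_cross (p.takeUntil y hy) hq hyS
  exact hp z (p.support_takeUntil_subset_support hy hz) hz'

/-! ### submodularity -/

/-- pointwise submodularity -/
theorem bd_inter_union_ind (X Y : Finset F) (e : Sym2 V) :
    (if e ∈ T.bd (X ∩ Y) then 1 else 0) + (if e ∈ T.bd (X ∪ Y) then 1 else 0) +
      (if e ∈ T.G.edgeSet ∧ (∃ f ∈ T.sd e, f ∈ X \ Y) ∧ ∃ g ∈ T.sd e, g ∈ Y \ X then 2 else 0) =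
    (if e ∈ T.bd X then 1 else 0) + (if e ∈ T.bd Y then 1 else 0) := by
  by_cases he : e ∈ T.G.edgeSet
  · obtain ⟨a, b, hab, hs⟩ := T.sides he
    simp only [mem_bd_sides he hab hs, hs, he, mem_inter, mem_union, mem_sdiff, mem_insert,
      mem_singleton, exists_eq_or_imp, exists_eq_left, true_and]
    by_cases h1 : a ∈ X <;> by_cases h2 : b ∈ X <;> by_cases h3 : a ∈ Y <;>
      by_cases h4 : b ∈ Y <;> simp [h1, h2, h3, h4]
  · have h1 : ∀ S : Finset F, e ∉ T.bd S := fun S h => he (bd_edge h)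
    simp [h1, he]

/-- exact submodularity count -/
theorem submod_card (X Y : Finset F) :
    (T.bd (X ∩ Y)).card + (T.bd (X ∪ Y)).card +
      2 * (univ.filter (fun e : Sym2 V => e ∈ T.G.edgeSet ∧ (∃ f ∈ T.sd e, f ∈ X \ Y) ∧
        ∃ g ∈ T.sd e, g ∈ Y \ X)).card = (T.bd X).card + (T.bd Y).card := by
  have h : ∀ A : Finset (Sym2 V), A.card = ∑ e : Sym2 V, if e ∈ A then 1 else 0 := by
    intro A; simp
  have h2 : 2 * (univ.filter (fun e : Sym2 V => e ∈ T.G.edgeSet ∧ (∃ f ∈ T.sd e, f ∈ X \ Y) ∧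
        ∃ g ∈ T.sd e, g ∈ Y \ X)).card = ∑ e : Sym2 V, if e ∈ T.G.edgeSet ∧
        (∃ f ∈ T.sd e, f ∈ X \ Y) ∧ ∃ g ∈ T.sd e, g ∈ Y \ X then 2 else 0 := by
    rw [Finset.card_filter, Finset.mul_sum]
    apply Finset.sum_congr rfl
    intro e _
    split_ifs <;> rfl
  rw [h2, h (T.bd (X ∩ Y)), h (T.bd (X ∪ Y)), h (T.bd X), h (T.bd Y), ← Finset.sum_add_distrib,
    ← Finset.sum_add_distrib, ← Finset.sum_add_distrib]
  exact Finset.sum_congr rfl (fun e _ => bd_inter_union_ind X Y e)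

theorem submod (X Y : Finset F) :
    (T.bd (X ∩ Y)).card + (T.bd (X ∪ Y)).card ≤ (T.bd X).card + (T.bd Y).card := by
  have := T.submod_card X Y
  omega

theorem submod_eq {X Y : Finset F}
    (h : (T.bd X).card + (T.bd Y).card ≤ (T.bd (X ∩ Y)).card + (T.bd (X ∪ Y)).card) :
    ∀ e ∈ T.G.edgeSet, ∀ f ∈ T.sd e, ∀ g ∈ T.sd e, f ∈ X \ Y → g ∈ Y \ X → False := by
  intro e he f hf g hg hfX hgY
  have h1 := T.submod_card X Y
  have h2 : (univ.filter (fun e : Sym2 V => e ∈ T.G.edgeSet ∧ (∃ f ∈ T.sd e, f ∈ X \ Y) ∧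
        ∃ g ∈ T.sd e, g ∈ Y \ X)).card = 0 := by omega
  rw [Finset.card_eq_zero] at h2
  have : e ∈ (univ.filter (fun e : Sym2 V => e ∈ T.G.edgeSet ∧ (∃ f ∈ T.sd e, f ∈ X \ Y) ∧
        ∃ g ∈ T.sd e, g ∈ Y \ X)) := by
    rw [mem_filter]
    exact ⟨mem_univ _, he, ⟨f, hf, hfX⟩, ⟨g, hg, hgY⟩⟩
  rw [h2] at this
  simp at this

/-- posimodularity -/
theorem posimod (X Y : Finset F) :
    (T.bd (X \ Y)).card + (T.bd (Y \ X)).card ≤ (T.bd X).card + (T.bd Y).card := by
  have := T.submod X Yᶜ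
  rw [bd_compl] at this
  have h1 : X ∩ Yᶜ = X \ Y := by ext; simp
  have h2 : X ∪ Yᶜ = (Y \ X)ᶜ := by ext; simp; tauto
  rw [h1, h2, bd_compl] at this
  exact this

theorem posimod_eq {X Y : Finset F}
    (h : (T.bd X).card + (T.bd Y).card ≤ (T.bd (X \ Y)).card + (T.bd (Y \ X)).card) :
    ∀ e ∈ T.G.edgeSet, ∀ f ∈ T.sd e, ∀ g ∈ T.sd e, f ∈ X ∩ Y → g ∈ (X ∪ Y)ᶜ → False := by
  have h1 : X ∩ Yᶜ = X \ Y := by ext; simp
  have h2 : X ∪ Yᶜ = (Y \ X)ᶜ := by ext; simp; tauto
  intro e he f hf g hg hfX hgY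
  refine T.submod_eq (X := X) (Y := Yᶜ) (by rw [h1, h2, bd_compl, bd_compl]; exact h)
    e he f hf g hg ?_ ?_
  · simp only [mem_sdiff, mem_inter, mem_compl, not_not] at hfX ⊢
    exact hfX
  · simp only [mem_sdiff, mem_union, mem_compl, not_or] at hgY ⊢
    exact ⟨hgY.2, hgY.1⟩

/-- pointwise degrees in the case of equality -/
theorem deg_inter_union {X Y : Finset F}
    (h : ∀ e ∈ T.G.edgeSet, ∀ f ∈ T.sd e, ∀ g ∈ T.sd e, f ∈ X \ Y → g ∈ Y \ X → False) (x : V) :
    ((T.bd (X ∩ Y)).filter (fun e => x ∈ e)).card + ((T.bd (X ∪ Y)).filter (fun e => x ∈ e)).card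
      = ((T.bd X).filter (fun e => x ∈ e)).card + ((T.bd Y).filter (fun e => x ∈ e)).card := by
  have h0 : ∀ A : Finset (Sym2 V), (A.filter (fun e => x ∈ e)).card =
      ∑ e ∈ univ.filter (fun e : Sym2 V => x ∈ e), if e ∈ A then 1 else 0 := by
    intro A
    rw [Finset.sum_ite_mem]
    simp only [sum_const, smul_eq_mul, mul_one]
    congr 1
    ext e
    simp only [mem_filter, mem_inter, mem_univ, true_and]
    tauto
  rw [h0, h0, h0, h0, ← Finset.sum_add_distrib, ← Finset.sum_add_distrib]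
  apply Finset.sum_congr rfl
  intro e _
  have := T.bd_inter_union_ind X Y e
  have hn : ¬ (e ∈ T.G.edgeSet ∧ (∃ f ∈ T.sd e, f ∈ X \ Y) ∧ ∃ g ∈ T.sd e, g ∈ Y \ X) := by
    rintro ⟨he, ⟨f, hf, hf'⟩, ⟨g, hg, hg'⟩⟩
    exact h e he f hf g hg hf' hg'
  rw [if_neg hn] at this
  simpa using this

/-! ### mass -/

variable {W : Finset V}

theorem mu_mono {S S' : Finset F} (h : S ⊆ S') : T.mu W S ≤ T.mu W S' :=
  Finset.card_le_card (Finset.inter_subset_inter_right (vset_mono h))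

theorem mu_union_le (S S' : Finset F) : T.mu W (S ∪ S') ≤ T.mu W S + T.mu W S' := by
  unfold mu
  rw [vset_union, Finset.union_inter_distrib_right]
  exact Finset.card_union_le _ _

@[simp] theorem mu_empty : T.mu W (∅ : Finset F) = 0 := by simp [mu]

theorem mu_univ : T.mu W (univ : Finset F) = W.card := by
  simp [mu, vset_univ]

theorem card_le_mu_add (S : Finset F) : W.card ≤ T.mu W S + T.mu W Sᶜ := by
  rw [← T.mu_univ (W := W), ← Finset.union_compl S]
  exact mu_union_le S Sᶜ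

theorem mu_le_add_sdiff {S S' : Finset F} : T.mu W S' ≤ T.mu W S + T.mu W (S' \ S) := by
  refine le_trans (mu_mono (S' := S ∪ (S' \ S)) ?_) (mu_union_le _ _)
  intro x hx
  by_cases h : x ∈ S
  · exact mem_union_left _ h
  · exact mem_union_right _ (mem_sdiff.2 ⟨hx, h⟩)

theorem mu_le_card (S : Finset F) : T.mu W S ≤ (T.vset S).card :=
  Finset.card_le_card Finset.inter_subset_left

theorem mu_biUnion_le {ι : Type*} (s : Finset ι) (f : ι → Finset F) :
    T.mu W (s.biUnion f) ≤ ∑ i ∈ s, T.mu W (f i) := by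
  induction s using Finset.induction_on with
  | empty => simp
  | insert a s ha ih =>
    rw [Finset.biUnion_insert, Finset.sum_insert ha]
    exact le_trans (mu_union_le _ _) (Nat.add_le_add_left ih _)

/-- for a vertex of `W` the mass of a savable set is less than `β` -/
theorem mu_lt_of_savable {β : ℕ} (hB : Bad T W β) {q : V} (hq : q ∈ W) {S : Finset F}
    (h : Savable T.G q (T.vset S)) : T.mu W S < β :=
  lt_of_le_of_lt (mu_le_card S) (hB.bad q hq _ h)

end Sph

/-! ### even sets -/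

theorem ev_empty : Ev (∅ : Finset (Sym2 V)) := by intro x; simp

omit [Fintype V] in
theorem card_filter_symmDiff (A B : Finset (Sym2 V)) (x : V) :
    ((symmDiff A B).filter (fun e => x ∈ e)).card +
      2 * ((A ∩ B).filter (fun e => x ∈ e)).card =
      (A.filter (fun e => x ∈ e)).card + (B.filter (fun e => x ∈ e)).card := by
  have h1 : (symmDiff A B).filter (fun e => x ∈ e) =
      ((A.filter (fun e => x ∈ e)) \ (B.filter (fun e => x ∈ e))) ∪
      ((B.filter (fun e => x ∈ e)) \ (A.filter (fun e => x ∈ e))) := by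
    ext e
    simp only [mem_filter, Finset.mem_symmDiff, mem_union, mem_sdiff]
    tauto
  have h2 : (A ∩ B).filter (fun e => x ∈ e) =
      (A.filter (fun e => x ∈ e)) ∩ (B.filter (fun e => x ∈ e)) := by
    ext e
    simp only [mem_filter, mem_inter]
    tauto
  have h3 : Disjoint ((A.filter (fun e => x ∈ e)) \ (B.filter (fun e => x ∈ e)))
      ((B.filter (fun e => x ∈ e)) \ (A.filter (fun e => x ∈ e))) :=
    disjoint_sdiff_sdiff
  rw [h1, h2, Finset.card_union_of_disjoint h3]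
  have h4 := Finset.card_sdiff_add_card_inter (A.filter (fun e => x ∈ e))
    (B.filter (fun e => x ∈ e))
  have h5 := Finset.card_sdiff_add_card_inter (B.filter (fun e => x ∈ e))
    (A.filter (fun e => x ∈ e))
  rw [Finset.inter_comm] at h5
  omega

theorem Ev.symmDiff {A B : Finset (Sym2 V)} (hA : Ev A) (hB : Ev B) : Ev (symmDiff A B) := by
  intro x
  have h := card_filter_symmDiff A B x
  have h1 := hA x
  have h2 := hB x
  rw [Nat.even_iff] at *
  omega

end Pool.Agent.Helper1.FF
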