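import Pool.Agent.Helper1.FF.Basic

set_option linter.unusedSectionVars false

/-!
Library on cyclic enumerations.
-/

namespace Pool.Agent.Helper1.FF

open Finset
open scoped Classical

variable {V F : Type} [Fintype V] [DecidableEq V] [Fintype F] [DecidableEq F]

namespace IsCyc

variable {A : Finset (Sym2 V)} {l : ℕ} {c : ℤ → V}

theorem per_nat (h : IsCyc A l c) (i : ℤ) (k : ℕ) : c (i + k * l) = c i := by
  induction k with
  | zero => simp
  | succ k ih =>
    rw [← ih, ← h.per (i + k * l)]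
    congr 1
    push_cast
    ring

theorem per_int (h : IsCyc A l c) (i k : ℤ) : c (i + k * l) = c i := by
  obtain ⟨n, rfl | rfl⟩ := k.eq_nat_or_neg
  · exact h.per_nat i n
  · rw [← h.per_nat (i + -(n : ℤ) * l) n]
    congr 1
    ring

theorem eq_iff (h : IsCyc A l c) {i j : ℤ} : c i = c j ↔ (l : ℤ) ∣ i - j := by
  refine ⟨h.inj i j, ?_⟩
  rintro ⟨k, hk⟩
  rw [← h.per_int j k]
  congr 1
  linarith [mul_comm (l : ℤ) k]

theorem shift (h : IsCyc A l c) (k : ℤ) : IsCyc A l (fun i => c (i + k)) where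
  three := h.three
  per i := by
    show c (i + l + k) = c (i + k)
    rw [← h.per (i + k)]
    congr 1
    ring
  inj i j hij := by
    have := h.inj _ _ hij
    simpa using this
  edge e := by
    rw [h.edge]
    constructor
    · rintro ⟨i, rfl⟩
      refine ⟨i - k, ?_⟩
      show s(c i, c (i + 1)) = s(c (i - k + k), c (i - k + 1 + k))
      rw [show i - k + k = i by ring, show i - k + 1 + k = i + 1 by ring]
    · rintro ⟨i, rfl⟩
      refine ⟨i + k, ?_⟩
      show s(c (i + k), c (i + 1 + k)) = s(c (i + k), c (i + k + 1))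
      rw [show i + 1 + k = i + k + 1 by ring]

theorem reflect (h : IsCyc A l c) : IsCyc A l (fun i => c (-i)) where
  three := h.three
  per i := by
    show c (-(i + l)) = c (-i)
    rw [← h.per (-(i + l))]
    congr 1
    ring
  inj i j hij := by
    have h6 := h.inj _ _ hij
    have h7 : -i - -j = j - i := by ring
    rw [dvd_sub_comm]
    rwa [h7] at h6
  edge e := by
    rw [h.edge]
    constructor
    · rintro ⟨i, rfl⟩
      refine ⟨-i - 1, ?_⟩
      show s(c i, c (i + 1)) = s(c (-(-i - 1)), c (-(-i - 1 + 1)))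
      rw [show -(-i - 1) = i + 1 by ring, show -(-i - 1 + 1) = i by ring, Sym2.eq_swap]
    · rintro ⟨i, rfl⟩
      refine ⟨-i - 1, ?_⟩
      show s(c (-i), c (-(i + 1))) = s(c (-i - 1), c (-i - 1 + 1))
      rw [show -(i + 1) = -i - 1 by ring, show -i - 1 + 1 = -i by ring, Sym2.eq_swap]

theorem edge_mem (h : IsCyc A l c) (i : ℤ) : s(c i, c (i + 1)) ∈ A := (h.edge _).2 ⟨i, rfl⟩

theorem edge_mem' (h : IsCyc A l c) (i : ℤ) : s(c (i - 1), c i) ∈ A := by
  have := h.edge_mem (i - 1)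
  rwa [sub_add_cancel] at this

theorem pos (h : IsCyc A l c) : (3 : ℤ) ≤ l := by exact_mod_cast h.three

theorem ne_succ (h : IsCyc A l c) (i : ℤ) : c i ≠ c (i + 1) := by
  rw [Ne, h.eq_iff]
  intro hd
  have := h.pos
  have h1 : (l : ℤ) ∣ 1 := by
    have h2 : i - (i + 1) = -1 := by ring
    rw [h2] at hd
    exact (dvd_neg.1 hd)
  have := Int.le_of_dvd one_pos h1
  omega

theorem ne_of_lt (h : IsCyc A l c) {i j : ℤ} (h1 : i < j) (h2 : j < i + l) : c i ≠ c j := by
  rw [Ne, h.eq_iff]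
  intro hd
  have h3 : (l : ℤ) ∣ j - i := dvd_sub_comm.1 hd
  have := Int.le_of_dvd (by omega) h3
  omega

theorem on_iff (h : IsCyc A l c) {x : V} : (∃ e ∈ A, x ∈ e) ↔ ∃ i, x = c i := by
  constructor
  · rintro ⟨e, he, hx⟩
    obtain ⟨i, rfl⟩ := (h.edge e).1 he
    rw [Sym2.mem_iff] at hx
    rcases hx with rfl | rfl
    · exact ⟨i, rfl⟩
    · exact ⟨i + 1, rfl⟩
  · rintro ⟨i, rfl⟩
    exact ⟨_, h.edge_mem i, by simp⟩

theorem edge_inj (h : IsCyc A l c) {i j : ℤ} (hij : s(c i, c (i + 1)) = s(c j, c (j + 1))) :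
    (l : ℤ) ∣ i - j := by
  rw [Sym2.eq_iff] at hij
  rcases hij with ⟨h1, _⟩ | ⟨h1, h2⟩
  · exact h.eq_iff.1 h1
  · exfalso
    have h3 := h.eq_iff.1 h1
    have h4 := h.eq_iff.1 h2
    have h5 : (l : ℤ) ∣ 2 := by
      have h6 := dvd_sub h4 h3
      have h7 : i + 1 - j - (i - (j + 1)) = 2 := by ring
      rwa [h7] at h6
    have := Int.le_of_dvd two_pos h5
    have := h.pos
    omega

/-- representatives -/
theorem rep (h : IsCyc A l c) (i₀ i : ℤ) : ∃ k, i₀ ≤ k ∧ k < i₀ + l ∧ c k = c i := by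
  have hl : (0 : ℤ) < l := by have := h.pos; omega
  refine ⟨i₀ + (i - i₀) % l, ?_, ?_, ?_⟩
  · have := Int.emod_nonneg (i - i₀) (by omega : (l : ℤ) ≠ 0)
    omega
  · have := Int.emod_lt_of_pos (i - i₀) hl
    omega
  · rw [h.eq_iff]
    have : i₀ + (i - i₀) % l - i = -(l * ((i - i₀) / l)) := by
      have := Int.emod_add_mul_ediv (i - i₀) l
      linarith
    rw [this]
    exact dvd_neg.2 (dvd_mul_right _ _)

theorem edge_rep (h : IsCyc A l c) (i₀ : ℤ) {e : Sym2 V} (he : e ∈ A) :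
    ∃ k, i₀ ≤ k ∧ k < i₀ + l ∧ e = s(c k, c (k + 1)) := by
  obtain ⟨i, rfl⟩ := (h.edge e).1 he
  obtain ⟨k, h1, h2, h3⟩ := h.rep i₀ i
  refine ⟨k, h1, h2, ?_⟩
  have h4 : c (k + 1) = c (i + 1) := by
    rw [h.eq_iff]
    have := h.eq_iff.1 h3
    convert this using 1
    ring
  rw [h3, h4]

/-! ### arcs -/

theorem mem_arc {i j : ℤ} {e : Sym2 V} :
    e ∈ arc c i j ↔ ∃ k, i ≤ k ∧ k < j ∧ e = s(c k, c (k + 1)) := by
  simp only [arc, mem_image, mem_Ico]
  constructor
  · rintro ⟨k, ⟨h1, h2⟩, rfl⟩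
    exact ⟨k, h1, h2, rfl⟩
  · rintro ⟨k, h1, h2, rfl⟩
    exact ⟨k, ⟨h1, h2⟩, rfl⟩

@[simp] theorem arc_self (i : ℤ) : arc c i i = ∅ := by simp [arc]

theorem arc_sub (h : IsCyc A l c) (i j : ℤ) : arc c i j ⊆ A := by
  intro e he
  obtain ⟨k, _, _, rfl⟩ := mem_arc.1 he
  exact h.edge_mem k

theorem arc_union {i j k : ℤ} (h1 : i ≤ j) (h2 : j ≤ k) :
    arc c i j ∪ arc c j k = arc c i k := by
  ext e
  simp only [mem_union, mem_arc]
  constructor
  · rintro (⟨m, h3, h4, rfl⟩ | ⟨m, h3, h4, rfl⟩)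
    · exact ⟨m, h3, by omega, rfl⟩
    · exact ⟨m, by omega, h4, rfl⟩
  · rintro ⟨m, h3, h4, rfl⟩
    by_cases hm : m < j
    · exact Or.inl ⟨m, h3, hm, rfl⟩
    · exact Or.inr ⟨m, by omega, h4, rfl⟩

theorem arc_disjoint (h : IsCyc A l c) {i j k : ℤ} (h3 : k ≤ i + l) :
    Disjoint (arc c i j) (arc c j k) := by
  rw [Finset.disjoint_left]
  intro e he he'
  obtain ⟨m, hm1, hm2, rfl⟩ := mem_arc.1 he
  obtain ⟨n, hn1, hn2, hn⟩ := mem_arc.1 he'
  have := h.edge_inj hn
  have h4 : (l : ℤ) ∣ n - m := dvd_sub_comm.1 this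
  have := Int.le_of_dvd (by omega) h4
  omega

theorem arc_succ {i j : ℤ} (h1 : i ≤ j) :
    arc c i (j + 1) = insert s(c j, c (j + 1)) (arc c i j) := by
  rw [← arc_union h1 (by omega : j ≤ j + 1)]
  ext e
  simp only [mem_union, mem_insert, mem_arc]
  constructor
  · rintro (h | ⟨k, hk1, hk2, rfl⟩)
    · exact Or.inr h
    · have : k = j := by omega
      subst this
      exact Or.inl rfl
  · rintro (rfl | h)
    · exact Or.inr ⟨j, le_rfl, by omega, rfl⟩
    · exact Or.inl h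

theorem not_mem_arc (h : IsCyc A l c) {i j : ℤ} (h2 : j < i + l) :
    s(c j, c (j + 1)) ∉ arc c i j := by
  intro hcon
  obtain ⟨m, hm1, hm2, hm⟩ := mem_arc.1 hcon
  have := h.edge_inj hm
  have := Int.le_of_dvd (by omega) this
  omega

theorem arc_full (h : IsCyc A l c) (i : ℤ) : arc c i (i + l) = A := by
  ext e
  rw [mem_arc]
  constructor
  · rintro ⟨k, _, _, rfl⟩
    exact h.edge_mem k
  · intro he
    exact h.edge_rep i he

theorem arc_card_nat (h : IsCyc A l c) (i : ℤ) (n : ℕ) (hn : n ≤ l) :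
    (arc c i (i + n)).card = n := by
  induction n with
  | zero => simp
  | succ n ih =>
    have h1 : i + ((n + 1 : ℕ) : ℤ) = i + n + 1 := by push_cast; ring
    rw [h1, arc_succ (by omega), Finset.card_insert_of_notMem (h.not_mem_arc (by omega)),
      ih (by omega)]

theorem arc_card (h : IsCyc A l c) {i j : ℤ} (h1 : i ≤ j) (h2 : j ≤ i + l) :
    ((arc c i j).card : ℤ) = j - i := by
  obtain ⟨n, hn⟩ := Int.eq_ofNat_of_zero_le (by omega : 0 ≤ j - i)
  have h3 : j = i + n := by omega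
  rw [h3, h.arc_card_nat i n (by omega)]
  ring

theorem card_eq (h : IsCyc A l c) : A.card = l := by
  have := h.arc_card_nat 0 l le_rfl
  rwa [zero_add, ← zero_add (l : ℤ), h.arc_full 0] at this

theorem arc_card_le (c : ℤ → V) {i j : ℤ} (h1 : i ≤ j) : ((arc c i j).card : ℤ) ≤ j - i := by
  have h2 : (arc c i j).card ≤ (Finset.Ico i j).card := Finset.card_image_le
  rw [Int.card_Ico] at h2
  omega

/-- vertices of arcs -/
theorem mem_arc_vertex {i j : ℤ} {e : Sym2 V} (he : e ∈ arc c i j) {x : V} (hx : x ∈ e) :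
    ∃ k, i ≤ k ∧ k ≤ j ∧ x = c k := by
  obtain ⟨k, h1, h2, rfl⟩ := mem_arc.1 he
  rw [Sym2.mem_iff] at hx
  rcases hx with rfl | rfl
  · exact ⟨k, h1, by omega, rfl⟩
  · exact ⟨k + 1, by omega, by omega, rfl⟩

/-- parity of the degrees in an arc -/
theorem arc_parity_nat (h : IsCyc A l c) (i : ℤ) (n : ℕ) (hn : n ≤ l) (x : V) :
    Even ((arc c i (i + n)).filter (fun e => x ∈ e)).card ↔ (x = c i ↔ x = c (i + n)) := by
  induction n with
  | zero => simp
  | succ n ih =>
    have h1 : i + ((n + 1 : ℕ) : ℤ) = i + n + 1 := by push_cast; ring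
    have h2 := h.not_mem_arc (i := i) (j := i + n) (by omega)
    have h3 := h.ne_succ (i + n)
    rw [h1, arc_succ (by omega), Finset.filter_insert]
    by_cases hx : x ∈ s(c (i + n), c (i + n + 1))
    · rw [if_pos hx, Finset.card_insert_of_notMem (fun hcon => h2 (mem_filter.1 hcon).1),
        Nat.even_add_one, ih (by omega)]
      rw [Sym2.mem_iff] at hx
      rcases hx with rfl | rfl
      · simp [h3]
      · simp only [h3.symm, iff_false, not_not, iff_true]
    · rw [if_neg hx, ih (by omega)]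
      rw [Sym2.mem_iff, not_or] at hx
      simp [hx.1, hx.2]

theorem arc_parity (h : IsCyc A l c) {i j : ℤ} (h1 : i ≤ j) (h2 : j ≤ i + l) (x : V) :
    Even ((arc c i j).filter (fun e => x ∈ e)).card ↔ (x = c i ↔ x = c j) := by
  obtain ⟨n, hn⟩ := Int.eq_ofNat_of_zero_le (by omega : 0 ≤ j - i)
  have h3 : j = i + n := by omega
  subst h3
  exact h.arc_parity_nat i n (by omega) x

theorem ev (h : IsCyc A l c) : Ev A := by
  intro x
  rw [← h.arc_full 0, h.arc_parity (by omega) le_rfl, h.per]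

/-- the edges at a vertex of the cycle -/
theorem edges_at (h : IsCyc A l c) (i : ℤ) {e : Sym2 V} :
    (e ∈ A ∧ c i ∈ e) ↔ (e = s(c (i - 1), c i) ∨ e = s(c i, c (i + 1))) := by
  constructor
  · rintro ⟨he, hx⟩
    obtain ⟨j, rfl⟩ := (h.edge e).1 he
    rw [Sym2.mem_iff] at hx
    rcases hx with hx | hx
    · right
      have h1 := h.eq_iff.1 hx
      have h2 : c (i + 1) = c (j + 1) := by
        rw [h.eq_iff]; convert h1 using 1; ring
      rw [hx, h2]
    · left
      have h1 := h.eq_iff.1 hx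
      have h2 : c (i - 1) = c j := by
        rw [h.eq_iff]; convert h1 using 1; ring
      rw [hx, h2]
  · rintro (rfl | rfl)
    · exact ⟨h.edge_mem' i, by simp⟩
    · exact ⟨h.edge_mem i, by simp⟩

theorem edges_ne (h : IsCyc A l c) (i : ℤ) : s(c (i - 1), c i) ≠ s(c i, c (i + 1)) := by
  intro hcon
  have h1 : s(c (i - 1), c (i - 1 + 1)) = s(c i, c (i + 1)) := by
    rw [sub_add_cancel]; exact hcon
  have h2 := h.edge_inj h1
  have h3 : (l : ℤ) ∣ 1 := by
    have h7 : i - (i - 1) = 1 := by ring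
    rwa [dvd_sub_comm, h7] at h2
  have := Int.le_of_dvd one_pos h3
  have := h.pos
  omega

theorem deg_eq_two (h : IsCyc A l c) (i : ℤ) : (A.filter (fun e => c i ∈ e)).card = 2 := by
  have : A.filter (fun e => c i ∈ e) = {s(c (i - 1), c i), s(c i, c (i + 1))} := by
    ext e
    rw [mem_filter, h.edges_at, mem_insert, mem_singleton]
  rw [this, Finset.card_pair (h.edges_ne i)]

/-- in a simple cycle a vertex has degree 0 or 2 -/
theorem deg_le_two (h : IsCyc A l c) (x : V) : (A.filter (fun e => x ∈ e)).card ≤ 2 := by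
  by_cases hx : ∃ e ∈ A, x ∈ e
  · obtain ⟨i, rfl⟩ := h.on_iff.1 hx
    rw [h.deg_eq_two]
  · have : A.filter (fun e => x ∈ e) = ∅ := by
      rw [Finset.filter_eq_empty_iff]
      intro e he hxe
      exact hx ⟨e, he, hxe⟩
    rw [this]
    simp

/-! ### a cyclically enumerated set is a circuit -/

theorem nonempty (h : IsCyc A l c) : A.Nonempty := ⟨_, h.edge_mem 0⟩

theorem not_diag (h : IsCyc A l c) {e : Sym2 V} (he : e ∈ A) : ¬ e.IsDiag := by
  obtain ⟨i, rfl⟩ := (h.edge e).1 he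
  rw [Sym2.mk_isDiag_iff]
  exact h.ne_succ i

theorem minimal (h : IsCyc A l c) {B : Finset (Sym2 V)} (hB : B ⊆ A) (hBe : Ev B) :
    B = ∅ ∨ B = A := by
  -- membership propagates along the cycle
  have hstep : ∀ i : ℤ, s(c (i - 1), c i) ∈ B ↔ s(c i, c (i + 1)) ∈ B := by
    intro i
    have h1 := hBe (c i)
    have hsub : B.filter (fun e => c i ∈ e) ⊆ {s(c (i - 1), c i), s(c i, c (i + 1))} := by
      intro e he
      rw [mem_filter] at he
      have := (h.edges_at i).1 ⟨hB he.1, he.2⟩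
      simpa using this
    by_contra hcon
    have hcase : (s(c (i - 1), c i) ∈ B ∧ s(c i, c (i + 1)) ∉ B) ∨
        (s(c (i - 1), c i) ∉ B ∧ s(c i, c (i + 1)) ∈ B) := by tauto
    have hone : (B.filter (fun e => c i ∈ e)).card = 1 := by
      rcases hcase with ⟨ha, hb⟩ | ⟨ha, hb⟩
      · rw [Finset.card_eq_one]
        refine ⟨s(c (i - 1), c i), ?_⟩
        ext e
        rw [mem_singleton, mem_filter]
        constructor
        · rintro ⟨he, hc⟩
          have := hsub (mem_filter.2 ⟨he, hc⟩)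
          simp only [mem_insert, mem_singleton] at this
          rcases this with h2 | h2
          · exact h2
          · rw [h2] at he; exact absurd he hb
        · rintro rfl; exact ⟨ha, by simp⟩
      · rw [Finset.card_eq_one]
        refine ⟨s(c i, c (i + 1)), ?_⟩
        ext e
        rw [mem_singleton, mem_filter]
        constructor
        · rintro ⟨he, hc⟩
          have := hsub (mem_filter.2 ⟨he, hc⟩)
          simp only [mem_insert, mem_singleton] at this
          rcases this with h2 | h2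
          · rw [h2] at he; exact absurd he ha
          · exact h2
        · rintro rfl; exact ⟨hb, by simp⟩
    rw [hone] at h1
    exact Nat.not_even_one h1
  have hall : ∀ n : ℕ, (s(c (n : ℤ), c (n + 1)) ∈ B ↔ s(c 0, c 1) ∈ B) := by
    intro n
    induction n with
    | zero => simp
    | succ n ih =>
      have := hstep (n + 1)
      rw [add_sub_cancel_right] at this
      push_cast
      rw [← this, ih]
  by_cases h0 : s(c 0, c 1) ∈ B
  · right
    refine Finset.Subset.antisymm hB ?_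
    intro e he
    obtain ⟨k, hk1, _, rfl⟩ := h.edge_rep 0 he
    obtain ⟨n, rfl⟩ := Int.eq_ofNat_of_zero_le hk1
    exact (hall n).2 h0
  · left
    rw [Finset.eq_empty_iff_forall_notMem]
    intro e he
    obtain ⟨k, hk1, _, rfl⟩ := h.edge_rep 0 (hB he)
    obtain ⟨n, rfl⟩ := Int.eq_ofNat_of_zero_le hk1
    exact h0 ((hall n).1 he)

theorem circuit (h : IsCyc A l c) : IsCircuit A :=
  ⟨h.nonempty, fun _ he => h.not_diag he, h.ev, fun _ hB hBe => h.minimal hB hBe⟩

/-! ### distances -/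

variable {G : SimpleGraph V}

theorem adj (h : IsCyc A l c) (hA : ∀ e ∈ A, e ∈ G.edgeSet) (i : ℤ) : G.Adj (c i) (c (i + 1)) :=
  (SimpleGraph.mem_edgeSet G).1 (hA _ (h.edge_mem i))

/-- the walk along the cycle -/
theorem exists_walk_nat (h : IsCyc A l c) (hA : ∀ e ∈ A, e ∈ G.edgeSet) (i : ℤ) (n : ℕ) :
    ∃ p : G.Walk (c i) (c (i + n)), p.length = n ∧ ∀ e ∈ p.edges, e ∈ arc c i (i + n) := by
  induction n with
  | zero => exact ⟨SimpleGraph.Walk.nil.copy rfl (by simp), by simp, by simp⟩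
  | succ n ih =>
    obtain ⟨p, hp, hpe⟩ := ih
    have h1 : i + ((n + 1 : ℕ) : ℤ) = i + n + 1 := by push_cast; ring
    refine ⟨(p.concat (h.adj hA (i + n))).copy rfl (by rw [h1]), by simp [hp], ?_⟩
    intro e he
    rw [SimpleGraph.Walk.edges_copy, SimpleGraph.Walk.edges_concat, List.concat_eq_append,
      List.mem_append, List.mem_singleton] at he
    rw [h1, arc_succ (by omega), mem_insert]
    rcases he with he | he
    · exact Or.inr (hpe e he)
    · exact Or.inl he

theorem exists_walk (h : IsCyc A l c) (hA : ∀ e ∈ A, e ∈ G.edgeSet) {i j : ℤ} (hij : i ≤ j) :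
    ∃ p : G.Walk (c i) (c j), (p.length : ℤ) = j - i ∧ ∀ e ∈ p.edges, e ∈ arc c i j := by
  obtain ⟨n, hn⟩ := Int.eq_ofNat_of_zero_le (by omega : 0 ≤ j - i)
  have h3 : j = i + n := by omega
  subst h3
  obtain ⟨p, hp, hpe⟩ := h.exists_walk_nat hA i n
  exact ⟨p, by rw [hp]; ring, hpe⟩

theorem reachable (h : IsCyc A l c) (hA : ∀ e ∈ A, e ∈ G.edgeSet) (i j : ℤ) :
    G.Reachable (c i) (c j) := by
  rcases le_total i j with hij | hij
  · obtain ⟨p, _⟩ := h.exists_walk hA hij
    exact ⟨p⟩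
  · obtain ⟨p, _⟩ := h.exists_walk hA hij
    exact ⟨p.reverse⟩

theorem dist_le (h : IsCyc A l c) (hA : ∀ e ∈ A, e ∈ G.edgeSet) (i j : ℤ) :
    (G.dist (c i) (c j) : ℤ) ≤ |i - j| := by
  rcases le_total i j with hij | hij
  · obtain ⟨p, hp, _⟩ := h.exists_walk hA hij
    have := SimpleGraph.dist_le p
    rw [abs_sub_comm, abs_of_nonneg (by omega)]
    omega
  · obtain ⟨p, hp, _⟩ := h.exists_walk hA hij
    have := SimpleGraph.dist_le p
    rw [SimpleGraph.dist_comm, abs_of_nonneg (by omega)]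
    omega

end IsCyc

/-! ### isometric cycles -/

theorem Iso.shift {G : SimpleGraph V} {l : ℕ} {c : ℤ → V} (h : Iso G l c) (k : ℤ) :
    Iso G l (fun i => c (i + k)) := by
  intro i j hij
  have := h (i + k) (j + k) (by simpa using hij)
  simpa using this

theorem Iso.reflect {G : SimpleGraph V} {l : ℕ} {c : ℤ → V} (h : Iso G l c) :
    Iso G l (fun i => c (-i)) := by
  intro i j hij
  have h1 : |(-i) - (-j)| = |i - j| := by
    rw [← abs_neg]; congr 1; ring
  have := h (-i) (-j) (by rw [h1]; exact hij)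
  rw [h1] at this
  exact this

theorem IsoIn.shift {G : SimpleGraph V} {l : ℕ} {c : ℤ → V} (h : IsoIn G l c) (k : ℤ) :
    IsoIn G l (fun i => c (i + k)) := by
  intro i j hij p
  have := h (i + k) (j + k) (by simpa using hij) p
  simpa using this

theorem IsoIn.reflect {G : SimpleGraph V} {l : ℕ} {c : ℤ → V} (h : IsoIn G l c) :
    IsoIn G l (fun i => c (-i)) := by
  intro i j hij p
  have h1 : |(-i) - (-j)| = |i - j| := by
    rw [← abs_neg]; congr 1; ring
  have := h (-i) (-j) (by rw [h1]; exact hij) p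
  rw [h1] at this
  exact this

theorem Iso.isoIn {G : SimpleGraph V} {l : ℕ} {c : ℤ → V} (h : Iso G l c) : IsoIn G l c := by
  intro i j hij p
  rw [← h i j hij]
  exact_mod_cast SimpleGraph.dist_le p

theorem IsoIn.mono {G H : SimpleGraph V} {l : ℕ} {c : ℤ → V} (h : IsoIn G l c) (hle : H ≤ G) :
    IsoIn H l c := by
  intro i j hij p
  have := h i j hij (p.mapLe hle)
  simpa using this

theorem IsoIn.iso {A : Finset (Sym2 V)} {G : SimpleGraph V} {l : ℕ} {c : ℤ → V}
    (hc : IsCyc A l c) (hA : ∀ e ∈ A, e ∈ G.edgeSet) (h : IsoIn G l c) : Iso G l c := by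
  intro i j hij
  refine le_antisymm (hc.dist_le hA i j) ?_
  obtain ⟨p, hp⟩ := (hc.reachable hA i j).exists_walk_length_eq_dist
  rw [← hp]
  exact h i j hij p

/-- distances on an isometric cycle -/
theorem Iso.dist_eq {A : Finset (Sym2 V)} {G : SimpleGraph V} {l : ℕ} {c : ℤ → V}
    (h : Iso G l c) (hc : IsCyc A l c) {i j : ℤ} (h1 : i ≤ j) (h2 : j ≤ i + l) :
    (G.dist (c i) (c j) : ℤ) = min (j - i) (l - (j - i)) := by
  by_cases h3 : 2 * (j - i) ≤ l
  · rw [h i j (by rw [abs_sub_comm, abs_of_nonneg (by omega)]; exact h3), abs_sub_comm,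
      abs_of_nonneg (by omega), min_eq_left (by omega)]
  · have h4 := h (i + l) j (by rw [abs_of_nonneg (by omega)]; omega)
    rw [hc.per] at h4
    rw [h4, abs_of_nonneg (by omega), min_eq_right (by omega)]
    ring

/-- orient an isometric cycle so that two given vertices are at positions `0` and `dist` -/
theorem Iso.orient {A : Finset (Sym2 V)} {G : SimpleGraph V} {l : ℕ} {c : ℤ → V}
    (h : Iso G l c) (hc : IsCyc A l c) {x z : V} (hx : ∃ e ∈ A, x ∈ e) (hz : ∃ e ∈ A, z ∈ e) :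
    ∃ c' : ℤ → V, IsCyc A l c' ∧ Iso G l c' ∧ c' 0 = x ∧ c' (G.dist x z) = z := by
  obtain ⟨i, rfl⟩ := hc.on_iff.1 hx
  obtain ⟨j, rfl⟩ := hc.on_iff.1 hz
  obtain ⟨k, hk1, hk2, hk3⟩ := hc.rep i j
  rw [← hk3]
  have hd := h.dist_eq hc hk1 hk2.le
  by_cases h3 : 2 * (k - i) ≤ l
  · refine ⟨fun m => c (m + i), hc.shift i, h.shift i, by simp, ?_⟩
    show c ((G.dist (c i) (c k) : ℤ) + i) = c k
    rw [hd, min_eq_left (by omega)]
    congr 1
    ring
  · refine ⟨fun m => c (-m + i), (hc.shift i).reflect, (h.shift i).reflect, by simp, ?_⟩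
    show c (-(G.dist (c i) (c k) : ℤ) + i) = c k
    rw [hd, min_eq_right (by omega), hc.eq_iff]
    refine ⟨-1, ?_⟩
    ring

/-- a vertex of an isometric cycle which is metrically between `c 0` and `c δ`, `2 δ < l`, is on the
short arc -/
theorem Iso.between {A : Finset (Sym2 V)} {G : SimpleGraph V} {l : ℕ} {c : ℤ → V}
    (h : Iso G l c) (hc : IsCyc A l c) {δ : ℕ} (hδ : 2 * δ < l) {y : V} (hy : ∃ e ∈ A, y ∈ e)
    (hb : G.dist (c 0) y + G.dist y (c δ) = δ) :
    ∃ k : ℕ, k ≤ δ ∧ y = c k ∧ G.dist (c 0) y = k := by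
  obtain ⟨i, rfl⟩ := hc.on_iff.1 hy
  obtain ⟨k, hk1, hk2, hk3⟩ := hc.rep 0 i
  rw [← hk3] at hb ⊢
  have h1 := h.dist_eq hc hk1 (by omega)
  have hkδ : k ≤ δ := by
    by_contra hcon
    push Not at hcon
    have h2 := h.dist_eq hc (i := δ) (j := k) (by omega) (by omega)
    rw [SimpleGraph.dist_comm] at h2
    rcases le_total (k - 0) (l - (k - 0)) with h3 | h3
    · rw [min_eq_left h3] at h1
      omega
    · rw [min_eq_right h3] at h1
      rcases le_total (k - (δ : ℤ)) (l - (k - (δ : ℤ))) with h4 | h4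
      · rw [min_eq_left h4] at h2
        omega
      · rw [min_eq_right h4] at h2
        omega
  refine ⟨k.toNat, by omega, by rw [Int.toNat_of_nonneg hk1], ?_⟩
  rw [min_eq_left (by omega)] at h1
  omega

namespace Sph

variable {T : Sph V F}

theorem cyc_isBond {S : Finset F} {l : ℕ} {c : ℤ → V} (h : IsCyc (T.bd S) l c) : T.IsBond S :=
  isBond_iff_circuit.2 h.circuit

theorem onB_cyc {S : Finset F} {l : ℕ} {c : ℤ → V} (h : IsCyc (T.bd S) l c) {x : V} :
    T.OnB S x ↔ ∃ i, x = c i := h.on_iff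

theorem cyc_mem {S : Finset F} {l : ℕ} {c : ℤ → V} (h : IsCyc (T.bd S) l c) (i : ℤ) :
    T.OnB S (c i) := (onB_cyc h).2 ⟨i, rfl⟩

theorem cyc_adj {S : Finset F} {l : ℕ} {c : ℤ → V} (h : IsCyc (T.bd S) l c) (i : ℤ) :
    T.G.Adj (c i) (c (i + 1)) := h.adj (fun _ he => bd_edge he) i

theorem card_bdry_le {S : Finset F} {l : ℕ} {c : ℤ → V} (h : IsCyc (T.bd S) l c) :
    (univ.filter (fun x => T.OnB S x)).card ≤ l := by
  have h1 : univ.filter (fun x => T.OnB S x) ⊆ (Finset.Ico (0 : ℤ) l).image c := by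
    intro x hx
    rw [mem_filter] at hx
    obtain ⟨i, rfl⟩ := (onB_cyc h).1 hx.2
    obtain ⟨k, hk1, hk2, hk3⟩ := h.rep 0 i
    exact mem_image.2 ⟨k, mem_Ico.2 ⟨hk1, by omega⟩, hk3⟩
  refine (Finset.card_le_card h1).trans (Finset.card_image_le.trans ?_)
  rw [Int.card_Ico]
  omega

end Sph

end Pool.Agent.Helper1.FF
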