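import Mathlib

/-!
Definitions for MP_7cb822_co (two firefighters on planar graphs).
-/

namespace Pool.Agent.Helper1.FF

open Finset
open scoped Classical

/-! ### The firefighter process -/

section process

variable {V : Type} [Fintype V] [DecidableEq V]

/-- The set of burning vertices after step `t`, when the fire starts at `v` and the set `P s` is
protected at step `s` (for `s = 1, 2, ...`). -/
noncomputable def burn (G : SimpleGraph V) (v : V) (P : ℕ → Finset V) : ℕ → Finset V
  | 0 => {v}
  | t + 1 => burn G v P t ∪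
      univ.filter (fun x => (∃ y ∈ burn G v P t, G.Adj y x) ∧ ∀ s, 1 ≤ s → s ≤ t + 1 → x ∉ P s)

/-- `P` is a legal strategy for `k` firefighters: at each step `t + 1` at most `k` vertices which
are not on fire are protected. -/
def IsStrategy (k : ℕ) (G : SimpleGraph V) (v : V) (P : ℕ → Finset V) : Prop :=
  ∀ t, (P (t + 1)).card ≤ k ∧ Disjoint (P (t + 1)) (burn G v P t)

/-- The set of vertices that never burn. -/
noncomputable def saved (G : SimpleGraph V) (v : V) (P : ℕ → Finset V) : Finset V :=
  univ.filter (fun x => ∀ t, x ∉ burn G v P t)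

/-- The largest number of saved vertices over all strategies. -/
noncomputable def sn (k : ℕ) (G : SimpleGraph V) (v : V) : ℕ :=
  sSup {m : ℕ | ∃ P, IsStrategy k G v P ∧ m = (saved G v P).card}

/-- The `k`-surviving rate. -/
noncomputable def rho (k : ℕ) (G : SimpleGraph V) : ℝ :=
  (∑ v, (sn k G v : ℝ)) / (Fintype.card V : ℝ) ^ 2

/-- The set `X` can be saved by two firefighters when the fire starts at `q`. -/
def Savable (G : SimpleGraph V) (q : V) (X : Finset V) : Prop :=
  ∃ P, IsStrategy 2 G q P ∧ ∀ t, Disjoint X (burn G q P t)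

end process

/-! ### Triangulated spheres and planar graphs -/

/-- A combinatorial triangulation of the 2-sphere with vertex set `V`: a set of triangles such that
every edge is in exactly two triangles, every vertex is covered and has a connected link, the
triangulation is strongly connected, and the Euler characteristic is 2. -/
structure SphereTriangulation (V : Type) [Fintype V] [DecidableEq V] where
  faces : Finset (Finset V)
  card_face : ∀ f ∈ faces, f.card = 3
  cover : ∀ v, ∃ f ∈ faces, v ∈ f
  two : ∀ e : Finset V, e.card = 2 → (∃ f ∈ faces, e ⊆ f) → (faces.filter (fun f => e ⊆ f)).card = 2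
  link : ∀ v : V, ∀ S ⊆ faces.filter (fun f => v ∈ f), S.Nonempty →
    S ≠ faces.filter (fun f => v ∈ f) →
    ∃ f ∈ S, ∃ g ∈ faces.filter (fun f => v ∈ f) \ S, (f ∩ g).card = 2
  conn : ∀ S ⊆ faces, S.Nonempty → S ≠ faces → ∃ f ∈ S, ∃ g ∈ faces \ S, (f ∩ g).card = 2
  euler : Fintype.card V + faces.card =
    ((univ.powersetCard 2).filter (fun e => ∃ f ∈ faces, e ⊆ f)).card + 2

/-- The 1-skeleton of a triangulated sphere. -/
def SphereTriangulation.skeleton {V : Type} [Fintype V] [DecidableEq V]
    (T : SphereTriangulation V) : SimpleGraph V where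
  Adj a b := a ≠ b ∧ ∃ f ∈ T.faces, a ∈ f ∧ b ∈ f
  symm := ⟨fun a b ⟨h, f, hf, ha, hb⟩ => ⟨h.symm, f, hf, hb, ha⟩⟩
  loopless := ⟨fun a h => h.1 rfl⟩

/-- Planar graphs: at most three vertices, or a spanning subgraph of the 1-skeleton of a
triangulated sphere. -/
def IsPlanar {V : Type} [Fintype V] [DecidableEq V] (G : SimpleGraph V) : Prop :=
  Fintype.card V ≤ 3 ∨ ∃ T : SphereTriangulation V, G ≤ T.skeleton

/-! ### Abstract spheres -/

/-- boundary of a face set `S`: the edges with exactly one side in `S` -/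
noncomputable def bd' {V F : Type} [Fintype V] [DecidableEq V] [Fintype F] [DecidableEq F]
    (G : SimpleGraph V) (sd : Sym2 V → Finset F) (S : Finset F) : Finset (Sym2 V) :=
  univ.filter (fun e => e ∈ G.edgeSet ∧ (sd e ∩ S).card = 1)

/-- an edge set is even when every vertex has even degree in it -/
def Ev {V : Type} [Fintype V] [DecidableEq V] (A : Finset (Sym2 V)) : Prop :=
  ∀ x : V, Even (A.filter (fun e => x ∈ e)).card

/-- Everything about a triangulated sphere that the proof uses. `vs f` are the vertices of the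
face `f`, `sd e` are the two sides of the edge `e`. -/
structure Sph (V F : Type) [Fintype V] [DecidableEq V] [Fintype F] [DecidableEq F] where
  G : SimpleGraph V
  vs : F → Finset V
  sd : Sym2 V → Finset F
  conn : G.Connected
  sd_card : ∀ e ∈ G.edgeSet, (sd e).card = 2
  sd_vs : ∀ e ∈ G.edgeSet, ∀ f ∈ sd e, ∀ x ∈ e, x ∈ vs f
  vs_card : ∀ f, (vs f).card = 3
  cover : ∀ x, ∃ f, x ∈ vs f
  fe : ∀ f, (univ.filter (fun e => e ∈ G.edgeSet ∧ f ∈ sd e)).card = 3
  bd_even : ∀ S : Finset F, Ev (bd' G sd S)
  ex_bd : ∀ A : Finset (Sym2 V), (∀ e ∈ A, e ∈ G.edgeSet) → Ev A → ∃ S : Finset F, bd' G sd S = A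
  bd_zero : ∀ S : Finset F, bd' G sd S = ∅ → S = ∅ ∨ S = univ
  link : ∀ (S : Finset F) (x : V), x ∈ S.biUnion vs → x ∈ (Sᶜ).biUnion vs →
    ∃ e ∈ bd' G sd S, x ∈ e
  low : 2 * (univ.filter (fun x : V => 12 ≤ (univ.filter (fun f => x ∈ vs f)).card)).card
    ≤ Fintype.card V

section sph

variable {V F : Type} [Fintype V] [DecidableEq V] [Fintype F] [DecidableEq F]

namespace Sph

variable (T : Sph V F)

/-- boundary of a face set -/
noncomputable def bd (S : Finset F) : Finset (Sym2 V) := bd' T.G T.sd S

/-- all vertices of the faces of `S` -/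
def vset (S : Finset F) : Finset V := S.biUnion T.vs

/-- interior edges of `S`: both sides in `S` -/
def inn (S : Finset F) : Set (Sym2 V) := {e | e ∈ T.G.edgeSet ∧ T.sd e ⊆ S}

/-- number of faces at a vertex -/
noncomputable def nf (x : V) : ℕ := (univ.filter (fun f => x ∈ T.vs f)).card

/-- `x` is an end point of an edge of `bd S` -/
def OnB (S : Finset F) (x : V) : Prop := ∃ e ∈ T.bd S, x ∈ e

/-- bond: the boundary is a minimal nonempty boundary (equivalently a simple cycle) -/
def IsBond (S : Finset F) : Prop :=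
  (T.bd S).Nonempty ∧ ∀ S', T.bd S' ⊆ T.bd S → T.bd S' = ∅ ∨ T.bd S' = T.bd S

/-- `W`-mass of the closure of a face set -/
def mu (W : Finset V) (S : Finset F) : ℕ := (T.vset S ∩ W).card

end Sph

/-- minimal nonempty even edge set -/
def IsCircuit (A : Finset (Sym2 V)) : Prop :=
  A.Nonempty ∧ (∀ e ∈ A, ¬ e.IsDiag) ∧ Ev A ∧ ∀ B ⊆ A, Ev B → B = ∅ ∨ B = A

/-- `c : ℤ → V` is an `l`-periodic enumeration of the simple cycle with edge set `A` -/
structure IsCyc (A : Finset (Sym2 V)) (l : ℕ) (c : ℤ → V) : Prop where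
  three : 3 ≤ l
  per : ∀ i, c (i + l) = c i
  inj : ∀ i j, c i = c j → (l : ℤ) ∣ i - j
  edge : ∀ e, e ∈ A ↔ ∃ i, e = s(c i, c (i + 1))

/-- the edges of the arc `c i, c (i+1), ..., c j` -/
noncomputable def arc (c : ℤ → V) (i j : ℤ) : Finset (Sym2 V) :=
  (Finset.Ico i j).image (fun k => s(c k, c (k + 1)))

/-- walks in `H` between vertices of the cycle `c` are not shorter than the ring distance -/
def IsoIn (H : SimpleGraph V) (l : ℕ) (c : ℤ → V) : Prop :=
  ∀ i j : ℤ, 2 * |i - j| ≤ l → ∀ p : H.Walk (c i) (c j), |i - j| ≤ p.length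

/-- the cycle `c` is isometric in `G` -/
def Iso (G : SimpleGraph V) (l : ℕ) (c : ℤ → V) : Prop :=
  ∀ i j : ℤ, 2 * |i - j| ≤ l → (G.dist (c i) (c j) : ℤ) = |i - j|

/-- parent function of a breadth first search tree of `H` rooted at `q` -/
def IsBFS (H : SimpleGraph V) (q : V) (par : V → V) : Prop :=
  ∀ x, H.Reachable q x → x ≠ q → H.Adj (par x) x ∧ H.dist q (par x) + 1 = H.dist q x

/-- the first `n` edges of the path from `x` towards the root -/
def tp (par : V → V) : ℕ → V → Finset (Sym2 V)
  | 0, _ => ∅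
  | n + 1, x => insert s(par x, x) (tp par n (par x))

/-- the edge set of the tree path from `x` to the root -/
noncomputable def tpath (H : SimpleGraph V) (q : V) (par : V → V) (x : V) : Finset (Sym2 V) :=
  tp par (H.dist q x) x

/-- the standing assumptions on `W` and `β`: at every vertex of `W` there are at most 11 faces, and
no set of size at least `β` can be saved from it -/
structure Bad (T : Sph V F) (W : Finset V) (β : ℕ) : Prop where
  few : ∀ q ∈ W, T.nf q ≤ 11
  bad : ∀ q ∈ W, ∀ X, Savable T.G q X → X.card < β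

/-- the core produced by Part B -/
structure Core (T : Sph V F) (W : Finset V) (β : ℕ) (E : Finset F) (l : ℕ) : Prop where
  isBad : Bad T W β
  bond : T.IsBond E
  card : (T.bd E).card = l
  low : ∀ S, S ⊆ E → T.IsBond S → β ≤ T.mu W S → l ≤ (T.bd S).card
  tight : ∀ c, IsCyc (T.bd E) l c → IsoIn (T.G.deleteEdges (T.inn E)) l c
  co : β ≤ T.mu W Eᶜ
  lt : l < 2 * β

/-- `l`-cut: bond inside `E`, perimeter `l`, mass at least `2 β` -/
structure LC (T : Sph V F) (W : Finset V) (β : ℕ) (E : Finset F) (l : ℕ) (S : Finset F) :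
    Prop where
  sub : S ⊆ E
  bond : T.IsBond S
  card : (T.bd S).card = l
  mass : 2 * β ≤ T.mu W S

/-- blob: an `l`-cut or the complement of an `l`-cut -/
def Blob (T : Sph V F) (W : Finset V) (β : ℕ) (E : Finset F) (l : ℕ) (S : Finset F) : Prop :=
  LC T W β E l S ∨ LC T W β E l Sᶜ

end sph

end Pool.Agent.Helper1.FF
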