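import Pool.Agent.Helper1.FF.Defs

/-!
Exact statements of the packets for MP_7cb822_co. Proofs on paper: see the file
`helper1_firefighter_proof.md` of the team store.
-/

namespace Pool.Agent.Helper1.FF

open Finset
open scoped Classical

/-! ### A. firefighting -/

/-- CRIT. The saving criterion. -/
def Crit_stmt : Prop :=
  ∀ (V : Type) [Fintype V] [DecidableEq V] (G : SimpleGraph V) (q : V) (P X : Finset V)
    (τ : V → ℕ), q ∉ P →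
    (∀ c ∈ P, ∀ p : G.Walk q c, (∀ x ∈ p.support, x ∈ P → x = c) → τ c ≤ p.length) →
    (∀ t, (P.filter (fun c => τ c ≤ t)).card ≤ 2 * t) →
    (∀ x ∈ X, ∀ p : G.Walk q x, ∃ y ∈ p.support, y ∈ P) →
    Savable G q X

/-- The main inequality. -/
def Main_stmt : Prop :=
  ∀ (V F : Type) [Fintype V] [DecidableEq V] [Fintype F] [DecidableEq F] (T : Sph V F)
    (W : Finset V) (β : ℕ), 1 ≤ β → Bad T W β → W.card < 100000 * β

/-- SPHOF. A triangulated sphere gives the abstract structure. -/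
def SphOf_stmt : Prop :=
  ∀ (V : Type) [Fintype V] [DecidableEq V] (T : SphereTriangulation V),
    ∃ S : Sph V {f // f ∈ T.faces}, S.G = T.skeleton

/-- FINAL. -/
def Final_stmt : Prop :=
  ∃ ε : ℝ, 0 < ε ∧ ∀ (V : Type) [Fintype V] [DecidableEq V] (G : SimpleGraph V),
    2 ≤ Fintype.card V → IsPlanar G → ε < rho 2 G

/-- PATH. From `q` one can save a set of size `dist q x`. -/
def PathSave_stmt : Prop :=
  ∀ (V : Type) [Fintype V] [DecidableEq V] (G : SimpleGraph V) (q x : V), G.Reachable q x →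
    ∃ X, Savable G q X ∧ X.card = G.dist q x

/-! ### B. cycles, trees, sectors -/

/-- CIRC. A circuit can be enumerated cyclically. -/
def CircCyc_stmt : Prop :=
  ∀ (V : Type) [Fintype V] [DecidableEq V] (A : Finset (Sym2 V)), IsCircuit A →
    ∃ c : ℤ → V, IsCyc A A.card c

/-- A cyclically enumerated edge set is a circuit. -/
def CycCirc_stmt : Prop :=
  ∀ (V : Type) [Fintype V] [DecidableEq V] (A : Finset (Sym2 V)) (l : ℕ) (c : ℤ → V),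
    IsCyc A l c → IsCircuit A ∧ A.card = l

/-- CHORD. If the boundary cycle of the bond `S` is not isometric in `H`, one of the two sides
splits into two bonds with smaller perimeter, whose boundaries are in `H`. -/
def Chord_stmt : Prop :=
  ∀ (V F : Type) [Fintype V] [DecidableEq V] [Fintype F] [DecidableEq F] (T : Sph V F)
    (S : Finset F) (l : ℕ) (c : ℤ → V) (H : SimpleGraph V), T.IsBond S → IsCyc (T.bd S) l c →
    H ≤ T.G → (∀ e ∈ T.bd S, e ∈ H.edgeSet) → ¬ IsoIn H l c →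
    ∃ X₁ X₂ : Finset F, Disjoint X₁ X₂ ∧ (X₁ ∪ X₂ = S ∨ X₁ ∪ X₂ = Sᶜ) ∧
      T.IsBond X₁ ∧ T.IsBond X₂ ∧ (T.bd X₁).card < l ∧ (T.bd X₂).card < l ∧
      (∀ e ∈ T.bd X₁, e ∈ H.edgeSet) ∧ (∀ e ∈ T.bd X₂, e ∈ H.edgeSet)

/-- REROUTE around a bond `D` whose boundary is isometric in the closed side `D`. -/
def Reroute_stmt : Prop :=
  ∀ (V F : Type) [Fintype V] [DecidableEq V] [Fintype F] [DecidableEq F] (T : Sph V F)
    (D : Finset F) (l : ℕ) (c : ℤ → V), IsCyc (T.bd D) l c →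
    IsoIn (T.G.deleteEdges (T.inn Dᶜ)) l c →
    ∀ (x y : V) (p : T.G.Walk x y), x ∈ T.vset Dᶜ → y ∈ T.vset Dᶜ →
      ∃ p' : T.G.Walk x y, p'.length ≤ p.length ∧
        ∀ e ∈ p'.edges, (e ∈ p.edges ∧ e ∉ T.inn D) ∨ e ∈ T.bd D

/-- SECTOR. The sectors around the bond `S`. -/
def Sector_stmt : Prop :=
  ∀ (V F : Type) [Fintype V] [DecidableEq V] [Fintype F] [DecidableEq F] (T : Sph V F)
    (S : Finset F) (l : ℕ) (c : ℤ → V) (H : SimpleGraph V) (q : V) (par : V → V),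
    T.IsBond S → IsCyc (T.bd S) l c → H ≤ T.G → (∀ e ∈ H.edgeSet, e ∉ T.inn S) →
    IsBFS H q par → (∀ i, H.Reachable q (c i)) →
    ∃ sec : ℤ → Finset F,
      (∀ i, sec (i + l) = sec i) ∧
      (∀ i, T.bd (sec i) = symmDiff {s(c i, c (i + 1))}
        (symmDiff (tpath H q par (c i)) (tpath H q par (c (i + 1))))) ∧
      (∀ i, Disjoint (sec i) S) ∧
      (∀ i j, ¬ (l : ℤ) ∣ i - j → Disjoint (sec i) (sec j)) ∧
      (∀ g, g ∉ S → ∃ i, g ∈ sec i) ∧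
      (∀ i, sec i = ∅ ∨ T.IsBond (sec i))

/-- LCA. Symmetric differences of tree paths. -/
def Lca_stmt : Prop :=
  ∀ (V : Type) [Fintype V] [DecidableEq V] (H : SimpleGraph V) (q : V) (par : V → V) (x y : V),
    IsBFS H q par → H.Reachable q x → H.Reachable q y →
    ∃ a : ℕ, a ≤ H.dist q x ∧ a ≤ H.dist q y ∧
      par^[H.dist q x - a] x = par^[H.dist q y - a] y ∧
      (symmDiff (tpath H q par x) (tpath H q par y)).card + 2 * a = H.dist q x + H.dist q y ∧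
      (∀ e ∈ symmDiff (tpath H q par x) (tpath H q par y),
        (∃ k < H.dist q x - a, e = s(par^[k + 1] x, par^[k] x)) ∨
        (∃ k < H.dist q y - a, e = s(par^[k + 1] y, par^[k] y))) ∧
      (a = 0 → x ≠ q → y ≠ q → x ≠ y →
        ∃ e ∈ symmDiff (tpath H q par x) (tpath H q par y), q ∈ e)

/-! ### C. saving lemmas -/

/-- ACROSS. Saving the bond `S` by protecting its boundary. -/
def Across_stmt : Prop :=
  ∀ (V F : Type) [Fintype V] [DecidableEq V] [Fintype F] [DecidableEq F] (T : Sph V F)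
    (S : Finset F) (l : ℕ) (c : ℤ → V) (q : V) (f : ℤ → ℕ),
    IsCyc (T.bd S) l c → q ∉ T.vset S →
    (∀ i, f (i + l) = f i) →
    (∀ i, ∀ p : T.G.Walk q (c i), (∀ x ∈ p.support, (∃ j, x = c j) → x = c i) → f i ≤ p.length) →
    (∀ t : ℕ, ((Finset.Ico (0 : ℤ) l).filter (fun i => f i ≤ t)).card ≤ 2 * t) →
    Savable T.G q (T.vset S)

/-- COUNT1. Counting for (G). -/
def CountG_stmt : Prop :=
  ∀ (l : ℕ) (f : ℤ → ℕ), (∀ i, f (i + l) = f i) → (∀ i, f i ≤ f (i + 1) + 1) →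
    (∀ i, f (i + 1) ≤ f i + 1) → ∀ i₀ : ℤ, l ≤ f i₀ + f (i₀ + 1) →
    ∀ t : ℕ, ((Finset.Ico (0 : ℤ) l).filter (fun i => f i ≤ t)).card ≤ 2 * t

/-- COUNT2. Counting for (G2). -/
def CountG2_stmt : Prop :=
  ∀ (h : ℕ) (f : ℤ → ℕ), (∀ i, f (i + (2 * h : ℕ)) = f i) → (∀ i, f i ≤ f (i + 1) + 1) →
    (∀ i, f (i + 1) ≤ f i + 1) → ∀ i₀ j₀ : ℤ, ¬ ((2 * h : ℕ) : ℤ) ∣ i₀ - j₀ →
    h ≤ f i₀ → h ≤ f j₀ →
    ∀ t : ℕ, ((Finset.Ico (0 : ℤ) (2 * h : ℕ)).filter (fun i => f i ≤ t)).card ≤ 2 * t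

/-- WEDGE (Lemma D). `tree path` data: `u k` (`α ≤ k ≤ f c_i`) and `v k` are the vertices at depth
`k` of the tree paths to `c i` and `c j`, `u α = v α`. -/
def Wedge_stmt : Prop :=
  ∀ (V F : Type) [Fintype V] [DecidableEq V] [Fintype F] [DecidableEq F] (T : Sph V F)
    (S : Finset F) (l : ℕ) (c : ℤ → V) (q : V) (i j : ℤ) (α : ℕ) (u v : ℕ → V) (Ω : Finset F),
    T.IsBond S → IsCyc (T.bd S) l c → Iso T.G l c → q ∉ T.vset S → q ∉ T.vset Ω →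
    i < j → j < i + l → 1 ≤ α → α ≤ T.G.dist q (c i) → α ≤ T.G.dist q (c j) →
    (∀ k, α ≤ k → k ≤ T.G.dist q (c i) → T.G.dist q (u k) = k) →
    (∀ k, α ≤ k → k ≤ T.G.dist q (c j) → T.G.dist q (v k) = k) →
    u α = v α → u (T.G.dist q (c i)) = c i → v (T.G.dist q (c j)) = c j →
    Disjoint Ω S →
    (∀ e ∈ T.bd Ω, e ∈ arc c i j ∨ (∃ k, α ≤ k ∧ k < T.G.dist q (c i) ∧ e = s(u k, u (k + 1))) ∨
      (∃ k, α ≤ k ∧ k < T.G.dist q (c j) ∧ e = s(v k, v (k + 1)))) →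
    (∀ k : ℤ, i < k → k < j → (∀ m, α ≤ m → m ≤ T.G.dist q (c i) → c k ≠ u m) →
      (∀ m, α ≤ m → m ≤ T.G.dist q (c j) → c k ≠ v m) →
      s(c (k - 1), c k) ∈ T.bd Ω ∧ s(c k, c (k + 1)) ∈ T.bd Ω) →
    Savable T.G q (T.vset Ω)

/-! ### D. the core -/

/-- LT. Lipton-Tarjan separator. -/
def LT_stmt : Prop :=
  ∀ (V F : Type) [Fintype V] [DecidableEq V] [Fintype F] [DecidableEq F] (T : Sph V F)
    (W : Finset V) (q : V) (R : ℕ), 12 < W.card → (∀ x, T.G.dist q x ≤ R) →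
    ∃ S : Finset F, T.IsBond S ∧ (T.bd S).card ≤ 2 * R + 1 ∧
      W.card ≤ 4 * T.mu W S ∧ W.card ≤ 4 * T.mu W Sᶜ

/-- BASE. The side `D`. -/
def Base_stmt : Prop :=
  ∀ (V F : Type) [Fintype V] [DecidableEq V] [Fintype F] [DecidableEq F] (T : Sph V F)
    (W : Finset V) (β : ℕ), 1 ≤ β → Bad T W β → 100 * β ≤ W.card →
    ∃ D : Finset F, T.IsBond D ∧ (T.bd D).card < 2 * β ∧ W.card ≤ 2 * T.mu W D ∧
      W.card ≤ 4 * T.mu W Dᶜ ∧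
      ∀ c, IsCyc (T.bd D) (T.bd D).card c →
        IsoIn (T.G.deleteEdges (T.inn Dᶜ)) (T.bd D).card c

/-- TIGHTE. -/
def TightE_stmt : Prop :=
  ∀ (V F : Type) [Fintype V] [DecidableEq V] [Fintype F] [DecidableEq F] (T : Sph V F)
    (D E : Finset F) (l : ℕ) (c : ℤ → V), T.IsBond D →
    (∀ c, IsCyc (T.bd D) (T.bd D).card c →
      IsoIn (T.G.deleteEdges (T.inn Dᶜ)) (T.bd D).card c) →
    T.IsBond E → (T.bd E).card = l → E ⊆ Dᶜ →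
    (∀ S : Finset F, E ⊆ S → S ⊆ Dᶜ → T.IsBond S → l ≤ (T.bd S).card) →
    IsCyc (T.bd E) l c → IsoIn (T.G.deleteEdges (T.inn E)) l c

/-- FILL. -/
def Fill_stmt : Prop :=
  ∀ (V F : Type) [Fintype V] [DecidableEq V] [Fintype F] [DecidableEq F] (T : Sph V F)
    (D E : Finset F) (l : ℕ) (q : V), T.IsBond D →
    (∀ c, IsCyc (T.bd D) (T.bd D).card c →
      IsoIn (T.G.deleteEdges (T.inn Dᶜ)) (T.bd D).card c) →
    T.IsBond E → (T.bd E).card = l → E ⊆ Dᶜ →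
    (∀ S : Finset F, E ⊆ S → S ⊆ Dᶜ → T.IsBond S → l ≤ (T.bd S).card) →
    (∀ S : Finset F, E ⊆ S → S ⊆ Dᶜ → T.IsBond S → (T.bd S).card = l → S = E) →
    q ∈ T.vset Dᶜ → q ∉ T.vset E → Savable T.G q (T.vset E)

/-- CORE. Part B. -/
def Core_stmt : Prop :=
  ∀ (V F : Type) [Fintype V] [DecidableEq V] [Fintype F] [DecidableEq F] (T : Sph V F)
    (W : Finset V) (β : ℕ), 1 ≤ β → Bad T W β → 100 * β ≤ W.card →
    ∃ E l, Core T W β E l ∧ W.card ≤ 4 * T.mu W E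

/-- FLAT. -/
def Flat_stmt : Prop :=
  ∀ (V F : Type) [Fintype V] [DecidableEq V] [Fintype F] [DecidableEq F] (T : Sph V F)
    (W : Finset V) (β : ℕ) (E : Finset F) (l : ℕ) (A S : Finset F),
    Core T W β E l → T.IsBond A → β ≤ T.mu W A → A ⊆ S → S ⊆ E →
    l ≤ (T.bd S).card ∧ ((T.bd S).card = l → T.IsBond S)

/-- ISO. Heavy `l`-cuts have isometric boundaries. -/
def Iso_stmt : Prop :=
  ∀ (V F : Type) [Fintype V] [DecidableEq V] [Fintype F] [DecidableEq F] (T : Sph V F)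
    (W : Finset V) (β : ℕ) (E : Finset F) (l : ℕ) (S : Finset F) (c : ℤ → V),
    Core T W β E l → LC T W β E l S → IsCyc (T.bd S) l c → Iso T.G l c

/-- LATTICE. -/
def Lattice_stmt : Prop :=
  ∀ (V F : Type) [Fintype V] [DecidableEq V] [Fintype F] [DecidableEq F] (T : Sph V F)
    (W : Finset V) (β : ℕ) (E : Finset F) (l : ℕ) (A X Y : Finset F),
    Core T W β E l → LC T W β E l A → LC T W β E l X → LC T W β E l Y → A ⊆ X → A ⊆ Y →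
    LC T W β E l (X ∩ Y) ∧ LC T W β E l (X ∪ Y) ∧
      (∀ e ∈ T.G.edgeSet, ∀ f ∈ T.sd e, ∀ g ∈ T.sd e, f ∈ X \ Y → g ∈ Y \ X → False)

/-- HDIST. Deleting the interior edges of disjoint blobs does not change distances outside. -/
def HDist_stmt : Prop :=
  ∀ (V F : Type) [Fintype V] [DecidableEq V] [Fintype F] [DecidableEq F] (T : Sph V F)
    (W : Finset V) (β : ℕ) (E : Finset F) (l : ℕ) (O : Finset (Finset F)) (x y : V),
    Core T W β E l → (∀ X ∈ O, Blob T W β E l X) → (∀ X ∈ O, ∀ Y ∈ O, X ≠ Y → Disjoint X Y) →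
    (∀ X ∈ O, x ∈ T.vset Xᶜ ∧ y ∈ T.vset Xᶜ) →
    (T.G.deleteEdges {e | ∃ X ∈ O, e ∈ T.inn X}).Reachable x y ∧
    (T.G.deleteEdges {e | ∃ X ∈ O, e ∈ T.inn X}).dist x y = T.G.dist x y

/-- BLOBSEC. The sectors around a blob, with blobs as obstacles. -/
def BlobSector_stmt : Prop :=
  ∀ (V F : Type) [Fintype V] [DecidableEq V] [Fintype F] [DecidableEq F] (T : Sph V F)
    (W : Finset V) (β : ℕ) (E : Finset F) (l : ℕ) (S : Finset F) (O : Finset (Finset F)) (q : V)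
    (c : ℤ → V),
    Core T W β E l → Blob T W β E l S → (∀ X ∈ O, Blob T W β E l X) →
    (∀ X ∈ O, Disjoint X S) → (∀ X ∈ O, ∀ Y ∈ O, X ≠ Y → Disjoint X Y) →
    q ∈ W → q ∉ T.vset S → (∀ X ∈ O, q ∈ T.vset Xᶜ) → IsCyc (T.bd S) l c →
    ∃ (sec : ℤ → Finset F) (α : ℤ → ℕ),
      (∀ i, sec (i + l) = sec i) ∧ (∀ i, α (i + l) = α i) ∧
      (∀ i, Disjoint (sec i) S) ∧
      (∀ i j, ¬ (l : ℤ) ∣ i - j → Disjoint (sec i) (sec j)) ∧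
      (∀ g, g ∉ S → ∃ i, g ∈ sec i) ∧
      (∀ i, sec i = ∅ ∨ T.IsBond (sec i)) ∧
      (∀ i, (T.bd (sec i)).card + 2 * α i ≤ T.G.dist q (c i) + T.G.dist q (c (i + 1)) + 1) ∧
      (∀ i, α i = 0 → T.OnB (sec i) q) ∧
      (∀ i, α i ≠ 0 → ¬ T.OnB (sec i) q) ∧
      (∀ X ∈ O, ∀ i, X ⊆ sec i ∨ Disjoint X (sec i)) ∧
      (∀ i, ∃ α' : ℕ, (T.bd (sec i ∪ sec (i + 1))).card + 2 * α' ≤
          T.G.dist q (c i) + T.G.dist q (c (i + 2)) + 2 ∧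
        (α' = 0 → T.OnB (sec i ∪ sec (i + 1)) q)) ∧
      (∀ i j : ℤ, i < j → j < i + l → (∀ k, i ≤ k → k < j → α k ≠ 0) →
        q ∉ T.vset ((Finset.Ico i j).biUnion sec) →
        Savable T.G q (T.vset ((Finset.Ico i j).biUnion sec)))

/-- BLOBG. (G) and (G2) for blobs. -/
def BlobG_stmt : Prop :=
  ∀ (V F : Type) [Fintype V] [DecidableEq V] [Fintype F] [DecidableEq F] (T : Sph V F)
    (W : Finset V) (β : ℕ) (E : Finset F) (l : ℕ) (S : Finset F) (q : V) (c : ℤ → V),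
    Core T W β E l → Blob T W β E l S → q ∈ W → q ∉ T.vset S → IsCyc (T.bd S) l c →
    (∀ i, T.G.dist q (c i) + T.G.dist q (c (i + 1)) < l) ∧
    (∀ h, l = 2 * h → ∀ i j, h ≤ T.G.dist q (c i) → h ≤ T.G.dist q (c j) → (l : ℤ) ∣ i - j)

/-- REST. The non-transitional sectors are light. -/
def Rest_stmt : Prop :=
  ∀ (V F : Type) [Fintype V] [DecidableEq V] [Fintype F] [DecidableEq F] (T : Sph V F)
    (W : Finset V) (β : ℕ) (E : Finset F) (l : ℕ) (S : Finset F) (q : V) (c : ℤ → V)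
    (sec : ℤ → Finset F) (α : ℤ → ℕ),
    Core T W β E l → Blob T W β E l S → q ∈ W → q ∉ T.vset S → IsCyc (T.bd S) l c →
    (∀ i, sec (i + l) = sec i) → (∀ i, α (i + l) = α i) →
    (∀ i, Disjoint (sec i) S) →
    (∀ i j, ¬ (l : ℤ) ∣ i - j → Disjoint (sec i) (sec j)) →
    (∀ g, g ∉ S → ∃ i, g ∈ sec i) →
    (∀ i, sec i = ∅ ∨ T.IsBond (sec i)) →
    (∀ i, (T.bd (sec i)).card + 2 * α i ≤ T.G.dist q (c i) + T.G.dist q (c (i + 1)) + 1) →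
    (∀ i, α i = 0 → T.OnB (sec i) q) →
    (∀ i, α i ≠ 0 → ¬ T.OnB (sec i) q) →
    (∀ i j : ℤ, i < j → j < i + l → (∀ k, i ≤ k → k < j → α k ≠ 0) →
      q ∉ T.vset ((Finset.Ico i j).biUnion sec) →
      Savable T.G q (T.vset ((Finset.Ico i j).biUnion sec))) →
    ((Finset.Ico (0 : ℤ) l).filter (fun i => α i = 0)).card ≤ 11 ∧
    ((∃ i, α i = 0) →
      T.mu W (((Finset.Ico (0 : ℤ) l).filter (fun i => α i ≠ 0)).biUnion sec) ≤ 11 * β) ∧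
    ((∀ i, α i ≠ 0) → ∃ i₀, α i₀ ≠ 0 ∧ T.mu W (Sᶜ \ sec i₀) ≤ β)

/-! ### E. shrinking and cuts through a vertex -/

/-- SHRINK. -/
def Shrink_stmt : Prop :=
  ∀ (V F : Type) [Fintype V] [DecidableEq V] [Fintype F] [DecidableEq F] (T : Sph V F)
    (W : Finset V) (β : ℕ) (E : Finset F) (l : ℕ) (Z : Finset F) (q : V),
    1 ≤ β → Core T W β E l → LC T W β E l Z → 22 * β ≤ T.mu W Z → q ∈ W → q ∉ T.vset Zᶜ →
    ∃ X, X ⊆ Z ∧ T.IsBond X ∧ (T.bd X).card = l ∧ T.OnB X q ∧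
      T.mu W Z ≤ 11 * T.mu W X + 11 * β

/-- HALVE. -/
def Halve_stmt : Prop :=
  ∀ (V F : Type) [Fintype V] [DecidableEq V] [Fintype F] [DecidableEq F] (T : Sph V F)
    (W : Finset V) (β : ℕ) (E : Finset F) (l : ℕ) (Z : Finset F),
    1 ≤ β → Core T W β E l → LC T W β E l Z → 66 * β ≤ T.mu W Z →
    ∃ X, X ⊆ Z ∧ LC T W β E l X ∧ T.mu W Z ≤ 2 * T.mu W (Z \ X)

/-- UPDOWN. Cuts through a vertex of the annulus `(V₁, V₂)`; the other pieces are a light rest and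
at most 11 bonds of perimeter at most `l`. -/
def UpDown_stmt : Prop :=
  ∀ (V F : Type) [Fintype V] [DecidableEq V] [Fintype F] [DecidableEq F] (T : Sph V F)
    (W : Finset V) (β : ℕ) (E : Finset F) (l : ℕ) (V₁ V₂ : Finset F) (q : V),
    Core T W β E l → LC T W β E l V₁ → LC T W β E l V₂ → V₁ ⊆ V₂ → q ∈ W →
    q ∉ T.vset V₂ᶜ → q ∉ T.vset V₁ →
    (∃ S' : Finset F, V₁ ⊆ S' ∧ S' ⊆ V₂ ∧ LC T W β E l S' ∧ T.OnB S' q ∧
      ∃ (R : Finset F) (𝒳 : Finset (Finset F)), V₂ \ S' = R ∪ 𝒳.biUnion id ∧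
        T.mu W R ≤ 11 * β ∧ 𝒳.card ≤ 11 ∧
        ∀ X ∈ 𝒳, T.IsBond X ∧ (T.bd X).card ≤ l ∧ X ⊆ V₂ \ V₁) ∧
    (∃ Q' : Finset F, V₁ ⊆ Q' ∧ Q' ⊆ V₂ ∧ LC T W β E l Q' ∧ T.OnB Q' q ∧
      ∃ (R : Finset F) (𝒳 : Finset (Finset F)), Q' \ V₁ = R ∪ 𝒳.biUnion id ∧
        T.mu W R ≤ 11 * β ∧ 𝒳.card ≤ 11 ∧
        ∀ X ∈ 𝒳, T.IsBond X ∧ (T.bd X).card ≤ l ∧ X ⊆ V₂ \ V₁)

/-! ### F. cells -/

/-- CELL. -/
def Cell_stmt : Prop :=
  ∀ (V F : Type) [Fintype V] [DecidableEq V] [Fintype F] [DecidableEq F] (T : Sph V F)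
    (W : Finset V) (β : ℕ) (E : Finset F) (l : ℕ) (V₁ V₂ S₁ : Finset F) (c₁ c₂ : ℤ → V) (δ : ℕ)
    (q : V),
    Core T W β E l → LC T W β E l V₁ → LC T W β E l V₂ → V₁ ⊆ V₂ →
    IsCyc (T.bd V₁) l c₁ → IsCyc (T.bd V₂) l c₂ → c₁ 0 = c₂ 0 → c₁ δ = c₂ δ → 1 ≤ δ → 2 * δ < l →
    T.bd S₁ = symmDiff (arc c₂ 0 δ) (arc c₁ 0 δ) → Disjoint S₁ V₁ →
    q ∈ W → q ∉ T.vset V₂ᶜ → q ∉ T.vset V₁ → q ∉ T.vset S₁ →
    T.mu W S₁ < β

/-- SHORTCELL. -/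
def ShortCell_stmt : Prop :=
  ∀ (V F : Type) [Fintype V] [DecidableEq V] [Fintype F] [DecidableEq F] (T : Sph V F)
    (W : Finset V) (β : ℕ) (E : Finset F) (l : ℕ) (V₁ V₂ S₁ : Finset F) (c₁ c₂ : ℤ → V) (δ : ℕ),
    Core T W β E l → LC T W β E l V₁ → LC T W β E l V₂ → V₁ ⊆ V₂ →
    IsCyc (T.bd V₁) l c₁ → IsCyc (T.bd V₂) l c₂ → c₁ 0 = c₂ 0 → c₁ δ = c₂ δ → 1 ≤ δ → 2 * δ < l →
    T.bd S₁ = symmDiff (arc c₂ 0 δ) (arc c₁ 0 δ) → Disjoint S₁ V₁ →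
    T.mu W S₁ < 3 * β

/-- CELLSUB. -/
def CellSub_stmt : Prop :=
  ∀ (V F : Type) [Fintype V] [DecidableEq V] [Fintype F] [DecidableEq F] (T : Sph V F)
    (W : Finset V) (β : ℕ) (E : Finset F) (l : ℕ) (V₁ V₂ S₁ : Finset F) (c₁ c₂ : ℤ → V)
    (i j : ℤ),
    Core T W β E l → LC T W β E l V₁ → LC T W β E l V₂ → V₁ ⊆ V₂ →
    IsCyc (T.bd V₁) l c₁ → IsCyc (T.bd V₂) l c₂ → i ≤ j → 2 * (j - i) < l →
    T.bd S₁ = symmDiff (arc c₂ i j) (arc c₁ i j) → Disjoint S₁ V₁ →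
    S₁ ⊆ V₂ \ V₁

/-! ### G. three blobs -/

/-- `k`-th type of `l`-cuts with respect to the blobs `A₀`, `B₀`, `Eᶜ` -/
def Ty {V F : Type} [Fintype V] [DecidableEq V] [Fintype F] [DecidableEq F] (T : Sph V F)
    (E : Finset F) (l : ℕ) (A₀ B₀ : Finset F) (k : Fin 3) (S : Finset F) : Prop :=
  S ⊆ E ∧ (T.bd S).card = l ∧
    ((k = 0 ∧ A₀ ⊆ S ∧ Disjoint B₀ S) ∨ (k = 1 ∧ B₀ ⊆ S ∧ Disjoint A₀ S) ∨
      (k = 2 ∧ A₀ ⊆ S ∧ B₀ ⊆ S))

/-- TYPES. -/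
def Types_stmt : Prop :=
  ∀ (V F : Type) [Fintype V] [DecidableEq V] [Fintype F] [DecidableEq F] (T : Sph V F)
    (W : Finset V) (β : ℕ) (E : Finset F) (l : ℕ) (A₀ B₀ : Finset F) (u : V),
    Core T W β E l → LC T W β E l E → LC T W β E l A₀ → LC T W β E l B₀ → Disjoint A₀ B₀ →
    u ∈ W → u ∉ T.vset A₀ → u ∉ T.vset B₀ → u ∉ T.vset Eᶜ →
    ∀ t : Fin 3 → Prop, (∀ k, t k ↔ ∃ S, Ty T E l A₀ B₀ k S ∧ T.OnB S u) →
      (t 0 ∨ (t 1 ∧ t 2)) ∧ (t 1 ∨ (t 0 ∧ t 2)) ∧ (t 2 ∨ (t 0 ∧ t 1)) ∧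
      (Even l → t 0 ∧ t 1 ∧ t 2)

/-- ODDPAIR. Three bonds `X, Y₁, Y₂` partition the sphere, `V₁ ⊆ X`, and no edges between `X \ V₁`
and `Y₂`: then `X \ V₁` is a short cell. -/
def OddPair_stmt : Prop :=
  ∀ (V F : Type) [Fintype V] [DecidableEq V] [Fintype F] [DecidableEq F] (T : Sph V F)
    (W : Finset V) (β : ℕ) (E : Finset F) (l : ℕ) (X V₁ Y₁ Y₂ : Finset F),
    Core T W β E l → LC T W β E l X → LC T W β E l V₁ → V₁ ⊆ X → T.IsBond Y₁ → T.IsBond Y₂ →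
    Disjoint Y₁ Y₂ → Y₁ ∪ Y₂ = Xᶜ → (T.bd Y₁).card = l → l ≤ (T.bd Y₂).card → Odd l →
    (∀ e ∈ T.G.edgeSet, ∀ f ∈ T.sd e, ∀ g ∈ T.sd e, f ∈ X \ V₁ → g ∈ Y₂ → False) →
    T.mu W (X \ V₁) < 3 * β

/-- THREE. The three-blob lemma. -/
def Three_stmt : Prop :=
  ∀ (V F : Type) [Fintype V] [DecidableEq V] [Fintype F] [DecidableEq F] (T : Sph V F)
    (W : Finset V) (β : ℕ) (E : Finset F) (l : ℕ) (A₀ B₀ : Finset F),
    1 ≤ β → Core T W β E l → LC T W β E l E → LC T W β E l A₀ → LC T W β E l B₀ →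
    Disjoint A₀ B₀ →
    (W.filter (fun u => u ∉ T.vset A₀ ∧ u ∉ T.vset B₀ ∧ u ∉ T.vset Eᶜ)).card ≤ 21 * β

/-- SIX. No heavy `l`-bond disjoint from `T₀`. -/
def Six_stmt : Prop :=
  ∀ (V F : Type) [Fintype V] [DecidableEq V] [Fintype F] [DecidableEq F] (T : Sph V F)
    (W : Finset V) (β : ℕ) (E : Finset F) (l : ℕ) (T₀ Z : Finset F),
    1 ≤ β → Core T W β E l → LC T W β E l E → LC T W β E l T₀ → Z ⊆ E → Disjoint Z T₀ →
    T.IsBond Z → (T.bd Z).card = l → T.mu W Z < 66 * β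

/-! ### H. endgame -/

/-- STEP. Pinching at a vertex. -/
def Step_stmt : Prop :=
  ∀ (V F : Type) [Fintype V] [DecidableEq V] [Fintype F] [DecidableEq F] (T : Sph V F)
    (W : Finset V) (β : ℕ) (E : Finset F) (l : ℕ) (T₀ T₁ E₁ : Finset F) (q : V),
    1 ≤ β → Core T W β E l → LC T W β E l E → LC T W β E l T₀ → LC T W β E l T₁ →
    LC T W β E l E₁ → T₀ ⊆ T₁ → T₁ ⊆ E₁ → q ∈ W → q ∉ T.vset E₁ᶜ → q ∉ T.vset T₁ →
    ∃ T₂ E₂, LC T W β E l T₂ ∧ LC T W β E l E₂ ∧ T₁ ⊆ T₂ ∧ T₂ ⊆ E₂ ∧ E₂ ⊆ E₁ ∧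
      T.OnB T₂ q ∧ T.OnB E₂ q ∧ T.mu W (E₁ \ E₂) ≤ 737 * β ∧ T.mu W (T₂ \ T₁) ≤ 737 * β

/-- BETWEEN. -/
def Between_stmt : Prop :=
  ∀ (V F : Type) [Fintype V] [DecidableEq V] [Fintype F] [DecidableEq F] (T : Sph V F)
    (W : Finset V) (β : ℕ) (E : Finset F) (l : ℕ) (T₁ E₁ : Finset F) (x z : V),
    1 ≤ β → Core T W β E l → LC T W β E l T₁ → LC T W β E l E₁ → T₁ ⊆ E₁ →
    T.OnB T₁ x → T.OnB E₁ x → T.OnB T₁ z → T.OnB E₁ z → x ≠ z → 2 * T.G.dist x z < l →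
    ∃ S₁ : Finset F, T.mu W S₁ < 3 * β ∧
      ∀ (E₂ : Finset F) (y : V), LC T W β E l E₂ → T₁ ⊆ E₂ → E₂ ⊆ E₁ → T.OnB E₂ y →
        y ∉ T.vset E₁ᶜ → T.G.dist x y + T.G.dist y z = T.G.dist x z → y ∈ T.vset S₁

/-- CIRCULAR. -/
def Circular_stmt : Prop :=
  ∀ (V F : Type) [Fintype V] [DecidableEq V] [Fintype F] [DecidableEq F] (T : Sph V F)
    (W : Finset V) (β : ℕ) (E : Finset F) (l : ℕ) (T₁ E₁ : Finset F) (x y z : V),
    1 ≤ β → Core T W β E l → LC T W β E l T₁ → LC T W β E l E₁ → T₁ ⊆ E₁ →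
    T.OnB T₁ x → T.OnB E₁ x → T.OnB T₁ y → T.OnB E₁ y → T.OnB T₁ z → T.OnB E₁ z →
    x ≠ y → y ≠ z → z ≠ x →
    2 * T.G.dist x y < l → 2 * T.G.dist y z < l → 2 * T.G.dist z x < l →
    T.G.dist x y + T.G.dist y z + T.G.dist z x = l →
    T.mu W (E₁ \ T₁) < 9 * β

/-- TRI. Three vertices on an isometric cycle. -/
def Tri_stmt : Prop :=
  ∀ (V : Type) [Fintype V] [DecidableEq V] (G : SimpleGraph V) (A : Finset (Sym2 V)) (l : ℕ)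
    (c : ℤ → V) (i j k : ℤ), IsCyc A l c → Iso G l c →
    2 * G.dist (c i) (c j) ≤ l ∧
    (G.dist (c i) (c j) + G.dist (c j) (c k) + G.dist (c k) (c i) = l ∨
      G.dist (c i) (c k) = G.dist (c i) (c j) + G.dist (c j) (c k) ∨
      G.dist (c i) (c j) = G.dist (c i) (c k) + G.dist (c k) (c j) ∨
      G.dist (c j) (c k) = G.dist (c j) (c i) + G.dist (c i) (c k))

/-- ENDGAME. -/
def Endgame_stmt : Prop :=
  ∀ (V F : Type) [Fintype V] [DecidableEq V] [Fintype F] [DecidableEq F] (T : Sph V F)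
    (W : Finset V) (β : ℕ) (E : Finset F) (l : ℕ) (T₀ : Finset F),
    1 ≤ β → Core T W β E l → LC T W β E l E → LC T W β E l T₀ → T₀ ⊆ E →
    T.mu W (E \ T₀) < 7500 * β

end Pool.Agent.Helper1.FF
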